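import Pool.Agent.H2.TM.Growth

/-! Counting the numbers `(xT-y)/q` and `T(xT-y)/q+z`. -/

namespace H2TM

open Finset

theorem sep_aux (T i i' j j' M : ℤ) (hj : 0 ≤ j) (hj' : 0 ≤ j') (hjM : j < M) (hjM' : j' < M)
    (hMT : M ≤ T) (h : j - j' = (i - i') * T) : i = i' ∧ j = j' := by
  have hT : 0 < T := by linarith
  have hi : i = i' := by
    rcases lt_trichotomy i i' with hlt | heq | hgt
    · have : (i - i') * T ≤ -1 * T := mul_le_mul_of_nonneg_right (by linarith) hT.le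
      linarith
    · exact heq
    · have : 1 * T ≤ (i - i') * T := mul_le_mul_of_nonneg_right (by linarith) hT.le
      linarith
  subst hi
  refine ⟨rfl, ?_⟩
  have : (i - i) * T = 0 := by ring
  linarith

theorem countPair (h L q y0 K : ℕ) (hh : 1 ≤ h) (hL : 1 ≤ L) (hq : 1 ≤ q)
    (hT : ∀ k : ℕ, L ∣ k → (q : ℤ) ∣ 2 ^ k - 1) (hK : 1 + q * y0 + q ≤ K) (p : ℕ → Prop) [DecidablePred p]
    (flip : ∀ k M i j N1 N2 : ℕ, L ∣ k → i < M → j < M → K * M ^ h < 2 ^ k →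
      (1 + q * i : ℤ) * 2 ^ k - (1 + q * (y0 + j)) = q * N1 →
      (1 + q * i : ℤ) * 2 ^ (k + L) - (1 + q * (y0 + j)) = q * N2 → p N1 ∨ p N2) :
    ∃ B : ℕ, 0 < B ∧ ∀ r : ℕ, (2 ^ (L * r)) ^ 2 ≤ 2 * ((range (B * (2 ^ (L * (h + 1))) ^ r)).filter p).card := by
  refine ⟨2 ^ (h * L * K + L), by positivity, ?_⟩
  intro r
  set M := 2 ^ (L * r) with hM
  set k := h * L * (K + r) with hk
  have hM1 : 1 ≤ M := Nat.one_le_two_pow
  have hkL : L ∣ k := ⟨h * (K + r), by rw [hk]; ring⟩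
  have hsize : K * M ^ h < 2 ^ k := by
    have h1 : 2 ^ k = 2 ^ (h * L * K) * M ^ h := by
      rw [hM, hk, ← pow_mul, ← pow_add]; congr 1; ring
    rw [h1]
    apply Nat.mul_lt_mul_of_pos_right _ (by positivity)
    have h2 : K < 2 ^ K := Nat.lt_two_pow_self
    have h3 : 2 ^ K ≤ 2 ^ (h * L * K) := by
      apply Nat.pow_le_pow_right (by norm_num)
      have : 1 ≤ h * L := Nat.mul_pos hh hL
      exact Nat.le_mul_of_pos_left _ this
    omega
  have hMT : K * M < 2 ^ k := by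
    refine lt_of_le_of_lt ?_ hsize
    apply Nat.mul_le_mul_left
    calc M = M ^ 1 := (pow_one M).symm
      _ ≤ M ^ h := Nat.pow_le_pow_right hM1 hh
  have hB : M * 2 ^ (k + L) = 2 ^ (h * L * K + L) * (2 ^ (L * (h + 1))) ^ r := by
    rw [hM, hk, ← pow_mul, ← pow_add, ← pow_add]; congr 1; ring
  -- existence
  have hex : ∀ k' : ℕ, L ∣ k' → k ≤ k' → ∀ i j : ℕ, j < M → ∃ N : ℕ,
      (1 + q * i : ℤ) * 2 ^ k' - (1 + q * (y0 + j)) = q * N := by
    intro k' hk' hkk' i j hj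
    have hd : (q : ℤ) ∣ (1 + q * i : ℤ) * 2 ^ k' - (1 + q * (y0 + j)) := by
      have e : (1 + q * i : ℤ) * 2 ^ k' - (1 + q * (y0 + j)) = (2 ^ k' - 1) + q * (i * 2 ^ k' - (y0 + j)) := by
        ring
      rw [e]
      exact dvd_add (hT k' hk') (dvd_mul_right _ _)
    obtain ⟨N, hN⟩ := hd
    have h2 : (2 : ℕ) ^ k ≤ 2 ^ k' := Nat.pow_le_pow_right (by norm_num) hkk'
    have h3 : 1 + q * (y0 + j) ≤ 2 ^ k' := by
      have h4 : 1 + q * (y0 + j) ≤ K * M := by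
        have h5 : (1 + q * y0 + q) * M ≤ K * M := Nat.mul_le_mul_right _ hK
        have h6 : q * j ≤ q * M := Nat.mul_le_mul_left _ hj.le
        have h7 : q * y0 * 1 ≤ q * y0 * M := Nat.mul_le_mul_left _ hM1
        have e1 : 1 + q * (y0 + j) = 1 + q * y0 * 1 + q * j := by ring
        have e2 : (1 + q * y0 + q) * M = M + q * y0 * M + q * M := by ring
        rw [e2] at h5
        rw [e1]
        omega
      omega
    have h4 : (1 + q * (y0 + j) : ℤ) ≤ 2 ^ k' := by exact_mod_cast h3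
    have h5 : (2 : ℤ) ^ k' ≤ (1 + q * i) * 2 ^ k' := by
      have : (0 : ℤ) ≤ q * i * 2 ^ k' := by positivity
      linarith
    have h6 : 0 ≤ (q : ℤ) * N := by rw [← hN]; linarith
    have h7 : 0 ≤ N := nonneg_of_mul_nonneg_right h6 (by exact_mod_cast hq)
    exact ⟨N.toNat, by rw [Int.toNat_of_nonneg h7]; exact hN⟩
  have hex1 := fun (v : ℕ × ℕ) (hv : v ∈ (range M) ×ˢ (range M)) =>
    hex k hkL le_rfl v.1 v.2 (mem_range.1 (mem_product.1 hv).2)
  have hex2 := fun (v : ℕ × ℕ) (hv : v ∈ (range M) ×ˢ (range M)) =>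
    hex (k + L) (dvd_add hkL (dvd_refl L)) (by omega) v.1 v.2 (mem_range.1 (mem_product.1 hv).2)
  choose! n1 hn1 using hex1
  choose! n2 hn2 using hex2
  have hinj : ∀ (k' : ℕ) (n : ℕ × ℕ → ℕ), k ≤ k' →
      (∀ v ∈ (range M) ×ˢ (range M), (1 + q * (v.1 : ℤ)) * 2 ^ k' - (1 + q * (y0 + (v.2 : ℤ))) = q * (n v : ℤ)) →
      Set.InjOn n (((range M) ×ˢ (range M) : Finset (ℕ × ℕ)) : Set (ℕ × ℕ)) := by
    intro k' n hkk' hn u hu v hv huv
    have h1 := hn u (mem_coe.1 hu)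
    have h2 := hn v (mem_coe.1 hv)
    rw [huv] at h1
    have hu' := mem_product.1 (mem_coe.1 hu)
    have hv' := mem_product.1 (mem_coe.1 hv)
    have hq0 : (q : ℤ) ≠ 0 := by exact_mod_cast (by omega : q ≠ 0)
    have h3 : (u.2 : ℤ) - v.2 = ((u.1 : ℤ) - v.1) * 2 ^ k' := by
      apply mul_left_cancel₀ hq0
      linarith
    have h5 : (M : ℤ) ≤ 2 ^ k' := by
      have h6 : (2 : ℕ) ^ k ≤ 2 ^ k' := Nat.pow_le_pow_right (by norm_num) hkk'
      have h7 : M ≤ 2 ^ k' := by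
        have : 1 * M ≤ K * M := Nat.mul_le_mul_right _ (by omega)
        omega
      exact_mod_cast h7
    have h8 := sep_aux (2 ^ k') u.1 v.1 u.2 v.2 M (by positivity) (by positivity)
      (by exact_mod_cast mem_range.1 hu'.2) (by exact_mod_cast mem_range.1 hv'.2) h5 h3
    exact Prod.ext (by exact_mod_cast h8.1) (by exact_mod_cast h8.2)
  have hlt : ∀ (k' : ℕ) (n : ℕ × ℕ → ℕ), k' ≤ k + L →
      (∀ v ∈ (range M) ×ˢ (range M), (1 + q * (v.1 : ℤ)) * 2 ^ k' - (1 + q * (y0 + (v.2 : ℤ))) = q * (n v : ℤ)) →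
      ∀ v ∈ (range M) ×ˢ (range M), n v < 2 ^ (h * L * K + L) * (2 ^ (L * (h + 1))) ^ r := by
    intro k' n hk' hn v hv
    rw [← hB]
    have h1 := hn v hv
    have hv' := mem_product.1 hv
    have hi : v.1 + 1 ≤ M := mem_range.1 hv'.1
    have h2 : (1 + q * (v.1 : ℤ)) ≤ q * M := by
      have h3 : (q : ℤ) * (v.1 + 1) ≤ q * M := mul_le_mul_of_nonneg_left (by exact_mod_cast hi) (by positivity)
      have h4 : (1 : ℤ) ≤ q := by exact_mod_cast hq
      linarith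
    have h3 : (2 : ℤ) ^ k' ≤ 2 ^ (k + L) := pow_le_pow_right₀ (by norm_num) hk'
    have h4 : (1 + q * (v.1 : ℤ)) * 2 ^ k' ≤ q * M * 2 ^ (k + L) :=
      mul_le_mul h2 h3 (by positivity) (by positivity)
    have h5 : (q : ℤ) * n v < q * (M * 2 ^ (k + L)) := by
      rw [← h1]
      have : (0 : ℤ) < 1 + q * (y0 + v.2) := by positivity
      linarith
    have h6 : (n v : ℤ) < M * 2 ^ (k + L) := lt_of_mul_lt_mul_left h5 (by positivity)
    exact_mod_cast h6
  have hcount := count_of_flip ((range M) ×ˢ (range M)) n1 n2 (hinj k n1 le_rfl hn1)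
    (hinj (k + L) n2 (by omega) hn2) (2 ^ (h * L * K + L) * (2 ^ (L * (h + 1))) ^ r) p
    (hlt k n1 (by omega) hn1) (hlt (k + L) n2 le_rfl hn2)
    (fun v hv => flip k M v.1 v.2 (n1 v) (n2 v) hkL (mem_range.1 (mem_product.1 hv).1)
      (mem_range.1 (mem_product.1 hv).2) hsize (hn1 v hv) (hn2 v hv))
  rw [card_product, card_range] at hcount
  calc M ^ 2 = M * M := by ring
    _ ≤ _ := hcount

theorem countTriple (h L q z0 K : ℕ) (hh : 1 ≤ h) (hL : 1 ≤ L) (hq : 1 ≤ q)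
    (hT : ∀ k : ℕ, L ∣ k → (q : ℤ) ∣ 2 ^ k - 1) (hK : q * q + q + 1 ≤ K) (p : ℕ → Prop) [DecidablePred p]
    (flip : ∀ k M i j l N1 N2 : ℕ, L ∣ k → i < M → j < M → l < M → K * M ^ h < 2 ^ k →
      (2 : ℤ) ^ k * ((1 + q * i) * 2 ^ k - (1 + q * j)) = q * N1 →
      (2 : ℤ) ^ (k + L) * ((1 + q * i : ℤ) * 2 ^ (k + L) - (1 + q * j)) = q * N2 →
      p ((z0 + q * l) + N1) ∨ p ((z0 + q * l) + N2)) :
    ∃ B : ℕ, 0 < B ∧ ∀ r : ℕ, (2 ^ (L * r)) ^ 3 ≤ 2 * ((range (B * (2 ^ (L * (2 * h + 1))) ^ r)).filter p).card := by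
  refine ⟨(1 + z0 + q) * 2 ^ (2 * (h * L * K) + 2 * L), by positivity, ?_⟩
  intro r
  set M := 2 ^ (L * r) with hM
  set k := h * L * (K + r) with hk
  have hM1 : 1 ≤ M := Nat.one_le_two_pow
  have hkL : L ∣ k := ⟨h * (K + r), by rw [hk]; ring⟩
  have hsize : K * M ^ h < 2 ^ k := by
    have h1 : 2 ^ k = 2 ^ (h * L * K) * M ^ h := by
      rw [hM, hk, ← pow_mul, ← pow_add]; congr 1; ring
    rw [h1]
    apply Nat.mul_lt_mul_of_pos_right _ (by positivity)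
    have h2 : K < 2 ^ K := Nat.lt_two_pow_self
    have h3 : 2 ^ K ≤ 2 ^ (h * L * K) := by
      apply Nat.pow_le_pow_right (by norm_num)
      have : 1 ≤ h * L := Nat.mul_pos hh hL
      exact Nat.le_mul_of_pos_left _ this
    omega
  have hMT : K * M < 2 ^ k := by
    refine lt_of_le_of_lt ?_ hsize
    apply Nat.mul_le_mul_left
    calc M = M ^ 1 := (pow_one M).symm
      _ ≤ M ^ h := Nat.pow_le_pow_right hM1 hh
  have hB : (1 + z0 + q) * (M * 2 ^ (2 * (k + L)))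
      = (1 + z0 + q) * 2 ^ (2 * (h * L * K) + 2 * L) * (2 ^ (L * (2 * h + 1))) ^ r := by
    rw [mul_assoc, hM, hk, ← pow_mul, ← pow_add, ← pow_add]; congr 2; ring
  have hex : ∀ k' : ℕ, L ∣ k' → k ≤ k' → ∀ i j : ℕ, j < M → ∃ N : ℕ,
      (2 : ℤ) ^ k' * ((1 + q * i) * 2 ^ k' - (1 + q * j)) = q * N := by
    intro k' hk' hkk' i j hj
    have hd : (q : ℤ) ∣ (1 + q * i : ℤ) * 2 ^ k' - (1 + q * j) := by
      have e : (1 + q * i : ℤ) * 2 ^ k' - (1 + q * j) = (2 ^ k' - 1) + q * (i * 2 ^ k' - j) := by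
        ring
      rw [e]
      exact dvd_add (hT k' hk') (dvd_mul_right _ _)
    obtain ⟨N, hN⟩ := hd
    have h2 : (2 : ℕ) ^ k ≤ 2 ^ k' := Nat.pow_le_pow_right (by norm_num) hkk'
    have h3 : 1 + q * j ≤ 2 ^ k' := by
      have h4 : 1 + q * j ≤ K * M := by
        have h5 : (1 + q) * M ≤ K * M := Nat.mul_le_mul_right _ (by nlinarith)
        have h6 : q * j ≤ q * M := Nat.mul_le_mul_left _ hj.le
        nlinarith
      omega
    have h4 : (1 + q * j : ℤ) ≤ 2 ^ k' := by exact_mod_cast h3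
    have h5 : (2 : ℤ) ^ k' ≤ (1 + q * i) * 2 ^ k' := by
      have : (0 : ℤ) ≤ q * i * 2 ^ k' := by positivity
      linarith
    have h6 : 0 ≤ (q : ℤ) * N := by rw [← hN]; linarith
    have h7 : 0 ≤ N := nonneg_of_mul_nonneg_right h6 (by exact_mod_cast hq)
    refine ⟨2 ^ k' * N.toNat, ?_⟩
    push_cast
    rw [Int.toNat_of_nonneg h7, hN]; ring
  have hex1 := fun (v : ℕ × ℕ × ℕ) (hv : v ∈ (range M) ×ˢ (range M) ×ˢ (range M)) =>
    hex k hkL le_rfl v.1 v.2.1 (mem_range.1 (mem_product.1 (mem_product.1 hv).2).1)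
  have hex2 := fun (v : ℕ × ℕ × ℕ) (hv : v ∈ (range M) ×ˢ (range M) ×ˢ (range M)) =>
    hex (k + L) (dvd_add hkL (dvd_refl L)) (by omega) v.1 v.2.1
      (mem_range.1 (mem_product.1 (mem_product.1 hv).2).1)
  choose! n1 hn1 using hex1
  choose! n2 hn2 using hex2
  have hinj : ∀ (k' : ℕ) (n : ℕ × ℕ × ℕ → ℕ), k ≤ k' →
      (∀ v ∈ (range M) ×ˢ (range M) ×ˢ (range M),
        (2 : ℤ) ^ k' * ((1 + q * (v.1 : ℤ)) * 2 ^ k' - (1 + q * (v.2.1 : ℤ))) = q * (n v : ℤ)) →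
      Set.InjOn (fun v => (z0 + q * v.2.2) + n v)
        (((range M) ×ˢ (range M) ×ˢ (range M) : Finset (ℕ × ℕ × ℕ)) : Set (ℕ × ℕ × ℕ)) := by
    intro k' n hkk' hn u hu v hv huv
    have h1 := hn u (mem_coe.1 hu)
    have h2 := hn v (mem_coe.1 hv)
    simp only at huv
    have hu' := mem_product.1 (mem_coe.1 hu)
    have hv' := mem_product.1 (mem_coe.1 hv)
    have hu'' := mem_product.1 hu'.2
    have hv'' := mem_product.1 hv'.2
    have hq0 : (q : ℤ) ≠ 0 := by exact_mod_cast (by omega : q ≠ 0)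
    have hq1 : (1 : ℤ) ≤ q := by exact_mod_cast hq
    have huvz : (z0 + q * (u.2.2 : ℤ)) + n u = (z0 + q * v.2.2) + n v := by exact_mod_cast huv
    have hTpos : (0 : ℤ) < 2 ^ k' := by positivity
    have hKT : (q : ℤ) * q * M < 2 ^ k' := by
      have h6 : (2 : ℕ) ^ k ≤ 2 ^ k' := Nat.pow_le_pow_right (by norm_num) hkk'
      have h7 : q * q * M < 2 ^ k' := by
        have : q * q * M ≤ K * M := Nat.mul_le_mul_right _ (by omega)
        omega
      exact_mod_cast h7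
    have hM0 : (0 : ℤ) < M := by exact_mod_cast hM1
    -- the `l` coordinate
    have hl : (u.2.2 : ℤ) = v.2.2 := by
      have e1 : (q : ℤ) * q * (u.2.2 - v.2.2)
          = (((1 + q * (v.1 : ℤ)) * 2 ^ k' - (1 + q * (v.2.1 : ℤ)))
            - ((1 + q * (u.1 : ℤ)) * 2 ^ k' - (1 + q * (u.2.1 : ℤ)))) * 2 ^ k' := by
        have : (q : ℤ) * q * (u.2.2 - v.2.2) = q * (n v) - q * (n u) := by
          have h9 : (q : ℤ) * (u.2.2 - v.2.2) = n v - n u := by linarith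
          calc (q : ℤ) * q * (u.2.2 - v.2.2) = q * (q * (u.2.2 - v.2.2)) := by ring
            _ = q * (n v - n u) := by rw [h9]
            _ = q * (n v) - q * (n u) := by ring
        rw [this, ← h1, ← h2]; ring
      have hul : (u.2.2 : ℤ) < M := by exact_mod_cast mem_range.1 hu''.2
      have hvl : (v.2.2 : ℤ) < M := by exact_mod_cast mem_range.1 hv''.2
      have hul0 : (0 : ℤ) ≤ u.2.2 := by positivity
      have hvl0 : (0 : ℤ) ≤ v.2.2 := by positivity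
      have hqq : (0 : ℤ) < (q : ℤ) * q := by positivity
      have h10 : |(q : ℤ) * q * (u.2.2 - v.2.2)| < 2 ^ k' := by
        rw [abs_mul, abs_of_pos hqq]
        refine lt_of_le_of_lt ?_ hKT
        apply mul_le_mul_of_nonneg_left _ hqq.le
        rw [abs_le]; constructor <;> linarith
      rw [e1, abs_mul, abs_of_pos hTpos] at h10
      set W : ℤ := ((1 + q * (v.1 : ℤ)) * 2 ^ k' - (1 + q * (v.2.1 : ℤ)))
            - ((1 + q * (u.1 : ℤ)) * 2 ^ k' - (1 + q * (u.2.1 : ℤ))) with hW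
      have h11 : |W| < 1 := by
        by_contra hcon
        push Not at hcon
        have : 1 * (2 : ℤ) ^ k' ≤ |W| * 2 ^ k' := mul_le_mul_of_nonneg_right hcon hTpos.le
        linarith
      have h12 : W = 0 := Int.abs_lt_one_iff.1 h11
      rw [h12, zero_mul] at e1
      rcases mul_eq_zero.1 e1 with h13 | h13
      · exact absurd h13 hqq.ne'
      · linarith
    have hnn : (n u : ℤ) = n v := by
      rw [hl] at huvz; linarith
    rw [hnn, ← h2] at h1
    have h3 := mul_left_cancel₀ hTpos.ne' h1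
    have h4 : (u.2.1 : ℤ) - v.2.1 = ((u.1 : ℤ) - v.1) * 2 ^ k' := by
      apply mul_left_cancel₀ hq0
      linarith
    have h5 : (M : ℤ) ≤ 2 ^ k' := by
      have : (1 : ℤ) * M ≤ q * q * M := mul_le_mul_of_nonneg_right (by nlinarith) hM0.le
      linarith
    have h8 := sep_aux (2 ^ k') u.1 v.1 u.2.1 v.2.1 M (by positivity) (by positivity)
      (by exact_mod_cast mem_range.1 hu''.1) (by exact_mod_cast mem_range.1 hv''.1) h5 h4
    exact Prod.ext (by exact_mod_cast h8.1) (Prod.ext (by exact_mod_cast h8.2) (by exact_mod_cast hl))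
  have hlt : ∀ (k' : ℕ) (n : ℕ × ℕ × ℕ → ℕ), k' ≤ k + L →
      (∀ v ∈ (range M) ×ˢ (range M) ×ˢ (range M),
        (2 : ℤ) ^ k' * ((1 + q * (v.1 : ℤ)) * 2 ^ k' - (1 + q * (v.2.1 : ℤ))) = q * (n v : ℤ)) →
      ∀ v ∈ (range M) ×ˢ (range M) ×ˢ (range M), (z0 + q * v.2.2) + n v
        < (1 + z0 + q) * 2 ^ (2 * (h * L * K) + 2 * L) * (2 ^ (L * (2 * h + 1))) ^ r := by
    intro k' n hk' hn v hv
    rw [← hB]
    have h1 := hn v hv
    have hv' := mem_product.1 hv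
    have hv'' := mem_product.1 hv'.2
    have hi : v.1 + 1 ≤ M := mem_range.1 hv'.1
    have hl : v.2.2 ≤ M := (mem_range.1 hv''.2).le
    have h2 : (1 + q * (v.1 : ℤ)) ≤ q * M := by
      have h3 : (q : ℤ) * (v.1 + 1) ≤ q * M := mul_le_mul_of_nonneg_left (by exact_mod_cast hi) (by positivity)
      have h4 : (1 : ℤ) ≤ q := by exact_mod_cast hq
      linarith
    have h3 : (2 : ℤ) ^ k' ≤ 2 ^ (k + L) := pow_le_pow_right₀ (by norm_num) hk'
    have h4 : (1 + q * (v.1 : ℤ)) * 2 ^ k' ≤ q * M * 2 ^ (k + L) :=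
      mul_le_mul h2 h3 (by positivity) (by positivity)
    have h5 : (q : ℤ) * n v < q * (M * 2 ^ (2 * (k + L))) := by
      rw [← h1]
      have h6 : (0 : ℤ) < 1 + q * v.2.1 := by positivity
      have h7 : (1 + q * (v.1 : ℤ)) * 2 ^ k' - (1 + q * (v.2.1 : ℤ)) < q * M * 2 ^ (k + L) := by linarith
      have h8 : (0 : ℤ) < 2 ^ k' := by positivity
      have h9 : (0 : ℤ) < q * M * 2 ^ (k + L) := by positivity
      calc (2 : ℤ) ^ k' * ((1 + q * (v.1 : ℤ)) * 2 ^ k' - (1 + q * (v.2.1 : ℤ)))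
          < 2 ^ k' * (q * M * 2 ^ (k + L)) := mul_lt_mul_of_pos_left h7 h8
        _ ≤ 2 ^ (k + L) * (q * M * 2 ^ (k + L)) := mul_le_mul_of_nonneg_right h3 h9.le
        _ = q * (M * 2 ^ (2 * (k + L))) := by
          have : (2 : ℤ) ^ (2 * (k + L)) = 2 ^ (k + L) * 2 ^ (k + L) := by rw [two_mul, pow_add]
          rw [this]; ring
    have h6 : (n v : ℤ) < M * 2 ^ (2 * (k + L)) := lt_of_mul_lt_mul_left h5 (by positivity)
    have h7 : n v < M * 2 ^ (2 * (k + L)) := by exact_mod_cast h6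
    have h8 : z0 + q * v.2.2 ≤ (z0 + q) * (M * 2 ^ (2 * (k + L))) := by
      have h9 : 1 ≤ 2 ^ (2 * (k + L)) := Nat.one_le_two_pow
      have h10 : M ≤ M * 2 ^ (2 * (k + L)) := Nat.le_mul_of_pos_right _ (by omega)
      have h11 : z0 * 1 ≤ z0 * (M * 2 ^ (2 * (k + L))) := Nat.mul_le_mul_left _ (by omega)
      have h12 : q * v.2.2 ≤ q * (M * 2 ^ (2 * (k + L))) := Nat.mul_le_mul_left _ (by omega)
      calc z0 + q * v.2.2 ≤ z0 * (M * 2 ^ (2 * (k + L))) + q * (M * 2 ^ (2 * (k + L))) := by omega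
        _ = _ := by ring
    calc (z0 + q * v.2.2) + n v < (z0 + q) * (M * 2 ^ (2 * (k + L))) + M * 2 ^ (2 * (k + L)) := by omega
      _ = (1 + z0 + q) * (M * 2 ^ (2 * (k + L))) := by ring
  have hcount := count_of_flip ((range M) ×ˢ (range M) ×ˢ (range M))
    (fun v => (z0 + q * v.2.2) + n1 v) (fun v => (z0 + q * v.2.2) + n2 v) (hinj k n1 le_rfl hn1)
    (hinj (k + L) n2 (by omega) hn2) _ p
    (hlt k n1 (by omega) hn1) (hlt (k + L) n2 le_rfl hn2)
    (fun v hv => flip k M v.1 v.2.1 v.2.2 (n1 v) (n2 v) hkL (mem_range.1 (mem_product.1 hv).1)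
      (mem_range.1 (mem_product.1 (mem_product.1 hv).2).1)
      (mem_range.1 (mem_product.1 (mem_product.1 hv).2).2) hsize (hn1 v hv) (hn2 v hv))
  rw [card_product, card_product, card_range] at hcount
  calc M ^ 3 = M * (M * M) := by ring
    _ ≤ _ := hcount

end H2TM
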