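import Mathlib

/-! Binary digit sums: block additivity and the shift lemma. -/

namespace H2TM

/-- sum of the binary digits -/
def s2 (n : ℕ) : ℕ := (Nat.digits 2 n).sum

theorem s2_zero : s2 0 = 0 := by simp [s2]

theorem s2_one : s2 1 = 1 := by simp [s2]

theorem s2_two_mul (n : ℕ) : s2 (2 * n) = s2 n := by
  rcases Nat.eq_zero_or_pos n with rfl | hn
  · simp
  · unfold s2
    rw [Nat.digits_def' (by norm_num) (by omega)]
    simp

theorem s2_two_mul_add_one (n : ℕ) : s2 (2 * n + 1) = s2 n + 1 := by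
  unfold s2
  rw [Nat.digits_def' (by norm_num) (by omega)]
  have h1 : (2 * n + 1) % 2 = 1 := by omega
  have h2 : (2 * n + 1) / 2 = n := by omega
  rw [h1, h2]
  simp [add_comm]

/-- digit sums of two blocks -/
theorem s2_add_mul (k : ℕ) : ∀ a b : ℕ, a < 2 ^ k → s2 (a + 2 ^ k * b) = s2 a + s2 b := by
  induction k with
  | zero =>
    intro a b ha
    have : a = 0 := by simpa using ha
    subst this
    simp [s2_zero]
  | succ k ih =>
    intro a b ha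
    rcases Nat.even_or_odd' a with ⟨c, hc | hc⟩
    · have hc' : c < 2 ^ k := by rw [pow_succ] at ha; omega
      have : a + 2 ^ (k + 1) * b = 2 * (c + 2 ^ k * b) := by rw [hc, pow_succ]; ring
      rw [this, s2_two_mul, ih c b hc', hc, s2_two_mul]
    · have hc' : c < 2 ^ k := by rw [pow_succ] at ha; omega
      have : a + 2 ^ (k + 1) * b = 2 * (c + 2 ^ k * b) + 1 := by rw [hc, pow_succ]; ring
      rw [this, s2_two_mul_add_one, ih c b hc', hc, s2_two_mul_add_one]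
      omega

/-- complement inside a block of `M` digits -/
theorem s2_compl (M : ℕ) : ∀ v : ℕ, v < 2 ^ M → s2 v + s2 (2 ^ M - 1 - v) = M := by
  induction M with
  | zero =>
    intro v hv
    have : v = 0 := by simpa using hv
    subst this
    simp [s2_zero]
  | succ M ih =>
    intro v hv
    have hM : 0 < 2 ^ M := by positivity
    rcases Nat.even_or_odd' v with ⟨c, hc | hc⟩
    · have hc' : c < 2 ^ M := by rw [pow_succ] at hv; omega
      have h1 : 2 ^ (M + 1) - 1 - v = 2 * (2 ^ M - 1 - c) + 1 := by rw [pow_succ]; omega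
      rw [h1, s2_two_mul_add_one, hc, s2_two_mul]
      have := ih c hc'
      omega
    · have hc' : c < 2 ^ M := by rw [pow_succ] at hv; omega
      have h1 : 2 ^ (M + 1) - 1 - v = 2 * (2 ^ M - 1 - c) := by rw [pow_succ]; omega
      rw [h1, s2_two_mul, hc, s2_two_mul_add_one]
      have := ih c hc'
      omega

/-- `u (2^M - 1)` has exactly `M` ones for `1 ≤ u ≤ 2^M` -/
theorem s2_mul_mersenne (M u : ℕ) (h1 : 1 ≤ u) (h2 : u ≤ 2 ^ M) : s2 (u * (2 ^ M - 1)) = M := by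
  obtain ⟨v, rfl⟩ : ∃ v, u = v + 1 := ⟨u - 1, by omega⟩
  have hM : 0 < 2 ^ M := by positivity
  have e : (v + 1) * (2 ^ M - 1) = (2 ^ M - 1 - v) + 2 ^ M * v := by
    obtain ⟨p, hp⟩ : ∃ p, 2 ^ M = p + 1 := ⟨2 ^ M - 1, by omega⟩
    rw [hp] at h2 ⊢
    obtain ⟨q, hq⟩ : ∃ q, p = v + q := ⟨p - v, by omega⟩
    subst hq
    have : v + q + 1 - 1 - v = q := by omega
    rw [this]
    have : v + q + 1 - 1 = v + q := by omega
    rw [this]; ring
  rw [e, s2_add_mul M _ _ (by omega)]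
  have := s2_compl M v (by omega)
  omega

/-- digit sum of a sum of blocks -/
theorem s2_blocks (k m : ℕ) : ∀ b : ℕ → ℕ, (∀ j < m, b j < 2 ^ k) →
    s2 (∑ j ∈ Finset.range (m + 1), b j * (2 ^ k) ^ j) = ∑ j ∈ Finset.range (m + 1), s2 (b j) := by
  induction m with
  | zero => intro b _; simp
  | succ m ih =>
    intro b hb
    rw [Finset.sum_range_succ' _ (m + 1), Finset.sum_range_succ' _ (m + 1)]
    have e : ∑ j ∈ Finset.range (m + 1), b (j + 1) * (2 ^ k) ^ (j + 1) + b 0 * (2 ^ k) ^ 0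
        = b 0 + 2 ^ k * ∑ j ∈ Finset.range (m + 1), b (j + 1) * (2 ^ k) ^ j := by
      rw [Finset.mul_sum, pow_zero, mul_one, add_comm]
      congr 1
      apply Finset.sum_congr rfl
      intro j _
      rw [pow_succ]; ring
    rw [e, s2_add_mul k _ _ (hb 0 (by omega)), ih (fun j => b (j + 1)) (fun j hj => hb (j + 1) (by omega))]
    ring

/-- The shift lemma.  `Q S = ∑ g_j T^j`, `T = 2^k`; block division with remainders `R_j`. -/
theorem s2_shift (Q L k m c : ℕ) (hQ : 0 < Q) (hc : Q * c = 2 ^ L - 1)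
    (g : ℕ → ℤ) (R b : ℕ → ℕ) (hR0 : R 0 = 0) (hRm : R (m + 1) = 0) (hRQ : ∀ j, R j ≤ Q)
    (hb : ∀ j ≤ m, (Q : ℤ) * b j = R (j + 1) * (2 : ℤ) ^ k + g j - R j)
    (hbT : ∀ j < m, b j < 2 ^ k) (S S' : ℤ)
    (hS : (Q : ℤ) * S = ∑ j ∈ Finset.range (m + 1), g j * ((2 : ℤ) ^ k) ^ j)
    (hS' : (Q : ℤ) * S' = ∑ j ∈ Finset.range (m + 1), g j * ((2 : ℤ) ^ (k + L)) ^ j) :
    0 ≤ S ∧ 0 ≤ S' ∧ s2 S'.toNat = s2 S.toNat + ∑ j ∈ Finset.range m, s2 (c * R (j + 1)) := by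
  have hQ' : (Q : ℤ) ≠ 0 := by exact_mod_cast hQ.ne'
  have tele : ∀ (X : ℤ) (M : ℕ), ∑ j ∈ Finset.range (M + 1),
      ((R (j + 1) : ℤ) * X ^ (j + 1) - R j * X ^ j) = R (M + 1) * X ^ (M + 1) - R 0 := by
    intro X M
    have := Finset.sum_range_sub (fun j => (R j : ℤ) * X ^ j) (M + 1)
    simpa using this
  -- value of S
  have hSval : S = ((∑ j ∈ Finset.range (m + 1), b j * (2 ^ k) ^ j : ℕ) : ℤ) := by
    apply mul_left_cancel₀ hQ'
    rw [hS]
    push_cast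
    rw [Finset.mul_sum]
    have : ∑ j ∈ Finset.range (m + 1), (Q : ℤ) * ((b j : ℤ) * ((2 : ℤ) ^ k) ^ j)
        = ∑ j ∈ Finset.range (m + 1), (((R (j + 1) : ℤ) * ((2 : ℤ) ^ k) ^ (j + 1) - R j * ((2 : ℤ) ^ k) ^ j)
          + g j * ((2 : ℤ) ^ k) ^ j) := by
      apply Finset.sum_congr rfl
      intro j hj
      rw [← mul_assoc, hb j (by simpa [Nat.lt_succ_iff] using hj)]
      ring
    rw [this, Finset.sum_add_distrib, tele, hRm, hR0]
    simp
  have hcL : (Q : ℤ) * c = 2 ^ L - 1 := by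
    have h1 : 1 ≤ 2 ^ L := Nat.one_le_two_pow
    have : ((Q * c : ℕ) : ℤ) = ((2 ^ L - 1 : ℕ) : ℤ) := by rw [hc]
    rw [Nat.cast_sub h1] at this
    push_cast at this
    exact this
  have hSval' : S' = ((∑ j ∈ Finset.range (m + 1), (b j + 2 ^ k * (c * R (j + 1))) * (2 ^ (k + L)) ^ j : ℕ) : ℤ) := by
    apply mul_left_cancel₀ hQ'
    rw [hS']
    push_cast
    rw [Finset.mul_sum]
    have : ∑ j ∈ Finset.range (m + 1), (Q : ℤ) * (((b j : ℤ) + 2 ^ k * (c * R (j + 1))) * ((2 : ℤ) ^ (k + L)) ^ j)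
        = ∑ j ∈ Finset.range (m + 1), (((R (j + 1) : ℤ) * ((2 : ℤ) ^ (k + L)) ^ (j + 1)
            - R j * ((2 : ℤ) ^ (k + L)) ^ j) + g j * ((2 : ℤ) ^ (k + L)) ^ j) := by
      apply Finset.sum_congr rfl
      intro j hj
      have h1 := hb j (by simpa [Nat.lt_succ_iff] using hj)
      have h2 : (Q : ℤ) * ((b j : ℤ) + 2 ^ k * (c * R (j + 1)))
          = R (j + 1) * 2 ^ (k + L) + g j - R j := by
        have : (Q : ℤ) * ((b j : ℤ) + 2 ^ k * (c * R (j + 1)))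
            = (Q : ℤ) * b j + 2 ^ k * R (j + 1) * ((Q : ℤ) * c) := by ring
        rw [this, h1, hcL, pow_add]; ring
      rw [← mul_assoc, h2]
      ring
    rw [this, Finset.sum_add_distrib, tele, hRm, hR0]
    simp
  have hlt : ∀ j < m, b j + 2 ^ k * (c * R (j + 1)) < 2 ^ (k + L) := by
    intro j hj
    have h1 := hbT j hj
    have h2 : c * R (j + 1) ≤ 2 ^ L - 1 := by
      rw [← hc, mul_comm Q c]; exact Nat.mul_le_mul_left _ (hRQ _)
    have h3 : 1 ≤ 2 ^ L := Nat.one_le_two_pow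
    have h4 : c * R (j + 1) + 1 ≤ 2 ^ L := by omega
    calc b j + 2 ^ k * (c * R (j + 1)) < 2 ^ k + 2 ^ k * (c * R (j + 1)) := by omega
      _ = 2 ^ k * (c * R (j + 1) + 1) := by ring
      _ ≤ 2 ^ k * 2 ^ L := Nat.mul_le_mul_left _ h4
      _ = 2 ^ (k + L) := by rw [pow_add]
  refine ⟨by rw [hSval]; positivity, by rw [hSval']; positivity, ?_⟩
  rw [hSval, hSval', Int.toNat_natCast, Int.toNat_natCast, s2_blocks (k + L) m _ hlt, s2_blocks k m _ hbT]
  rw [Finset.sum_range_succ, Finset.sum_range_succ _ m, hRm]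
  have : ∀ j ∈ Finset.range m, s2 (b j + 2 ^ k * (c * R (j + 1))) = s2 (b j) + s2 (c * R (j + 1)) := by
    intro j hj
    exact s2_add_mul k _ _ (hbT j (by simpa using hj))
  rw [Finset.sum_congr rfl this, Finset.sum_add_distrib]
  simp
  ring

/-- `3^(n+1)` divides `2^(3^n) + 1` -/
theorem three_pow_dvd (n : ℕ) : 3 ^ (n + 1) ∣ 2 ^ (3 ^ n) + 1 := by
  induction n with
  | zero => norm_num
  | succ n ih =>
    obtain ⟨c, hc⟩ := ih
    have e : 2 ^ 3 ^ (n + 1) = (2 ^ 3 ^ n) ^ 3 := by rw [← pow_mul, pow_succ]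
    have h1 : (1 : ℤ) ≤ 3 ^ (n + 1) := one_le_pow₀ (by norm_num)
    have hz : ((2 ^ 3 ^ n : ℕ) : ℤ) = 3 ^ (n + 1) * c - 1 := by
      have : ((2 ^ 3 ^ n + 1 : ℕ) : ℤ) = ((3 ^ (n + 1) * c : ℕ) : ℤ) := by rw [hc]
      push_cast at this ⊢
      linarith
    have : ((3 ^ (n + 1 + 1) : ℕ) : ℤ) ∣ ((2 ^ 3 ^ (n + 1) + 1 : ℕ) : ℤ) := by
      rw [e]
      push_cast at hz ⊢
      rw [hz]
      refine ⟨c * ((3 ^ n * c) * (3 ^ (n + 1) * c) - 3 ^ (n + 1) * c + 1), ?_⟩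
      ring
    exact_mod_cast this

/-- the key digit count: for `Q = 3^(n+1)`, `L = 2*3^n`, `0 < R < Q`, `s2 (R (2^L-1)/Q) = 3^n` -/
theorem s2_three (n : ℕ) : ∃ c : ℕ, 3 ^ (n + 1) * c = 2 ^ (2 * 3 ^ n) - 1 ∧
    ∀ R : ℕ, 0 < R → R < 3 ^ (n + 1) → s2 (c * R) = 3 ^ n := by
  obtain ⟨d, hd⟩ := three_pow_dvd n
  set M := 3 ^ n with hM
  have hp : 1 ≤ 2 ^ M := Nat.one_le_two_pow
  have h3 : 0 < 3 ^ (n + 1) := by positivity
  refine ⟨d * (2 ^ M - 1), ?_, ?_⟩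
  · rw [← mul_assoc, ← hd]
    have : 2 ^ (2 * M) = 2 ^ M * 2 ^ M := by rw [two_mul, pow_add]
    rw [this]
    obtain ⟨p, hp'⟩ : ∃ p, 2 ^ M = p + 1 := ⟨2 ^ M - 1, by omega⟩
    rw [hp']
    have e1 : p + 1 - 1 = p := by omega
    rw [e1]
    have : (p + 1) * (p + 1) = (p + 1 + 1) * p + 1 := by ring
    rw [this]; omega
  · intro R hR hRQ
    have e : d * (2 ^ M - 1) * R = (R * d) * (2 ^ M - 1) := by ring
    have hdpos : 0 < d := by
      rcases Nat.eq_zero_or_pos d with h | h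
      · rw [h] at hd; simp at hd
      · exact h
    rw [e, s2_mul_mersenne M (R * d) (Nat.mul_pos hR hdpos) ?_]
    have h1 : R * d < 3 ^ (n + 1) * d := Nat.mul_lt_mul_of_pos_right hRQ hdpos
    omega

end H2TM
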