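import Mathlib

/-! Polynomial algebra for the block expansions. -/

namespace H2TM

open Finset Polynomial

theorem coeff_lin (x y : ℤ) (l j : ℕ) :
    ((C x * X - C y : ℤ[X]) ^ l).coeff j = (-y) ^ (l - j) * (l.choose j) * x ^ j := by
  have e : (C x * X - C y : ℤ[X]) ^ l = ((X - C y) ^ l).comp (C x * X) := by
    simp [pow_comp]
  have e2 : (X - C y : ℤ[X]) = X + C (-y) := by rw [C_neg, sub_eq_add_neg]
  rw [e, comp_C_mul_X_coeff, e2, coeff_X_add_C_pow]

theorem alt_tail (H : ℕ) : ∀ d j : ℕ, j + d = H →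
    ∑ i ∈ Ico (j + 1) (H + 2), (-1 : ℤ) ^ (H + 1 - i) * ((H + 1).choose i)
      = (-1) ^ d * (H.choose j) := by
  intro d
  induction d with
  | zero =>
    intro j hj
    have : j = H := by omega
    subst this
    rw [show j + 2 = (j + 1) + 1 by ring, Nat.Ico_succ_singleton]
    simp
  | succ d ih =>
    intro j hj
    rw [Finset.sum_eq_sum_Ico_succ_bot (by omega), ih (j + 1) (by omega)]
    have e1 : H + 1 - (j + 1) = d + 1 := by omega
    rw [e1, Nat.choose_succ_succ]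
    push_cast
    ring

/-- `∑_{i ≤ h} C(i,l) a_i w^(i-l)`, the Taylor coefficients of `F` at `w` -/
def pc (a : ℕ → ℤ) (h l : ℕ) (w : ℤ) : ℤ :=
  ∑ i ∈ range (h + 1), a i * (i.choose l) * w ^ (i - l)

theorem taylor_sum (a : ℕ → ℤ) (h : ℕ) (w u : ℤ) :
    ∑ i ∈ range (h + 1), a i * (w + u) ^ i = ∑ l ∈ range (h + 1), pc a h l w * u ^ l := by
  unfold pc
  simp only [Finset.sum_mul]
  rw [Finset.sum_comm]
  apply Finset.sum_congr rfl
  intro i hi
  have hi' : i ≤ h := by simpa [Nat.lt_succ_iff] using hi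
  rw [add_comm w u, add_pow, Finset.mul_sum]
  rw [← Finset.sum_subset (s₁ := range (i + 1)) (s₂ := range (h + 1))]
  · apply Finset.sum_congr rfl
    intro l _
    ring
  · intro l hl; simp at hl ⊢; omega
  · intro l _ hl
    have : i < l := by simpa using hl
    rw [Nat.choose_eq_zero_of_lt this]; simp

theorem pc_modEq (a : ℕ → ℤ) (h l : ℕ) (w w' q : ℤ) (hw : q ∣ w - w') :
    q ∣ pc a h l w - pc a h l w' := by
  unfold pc
  rw [← Finset.sum_sub_distrib]
  apply Finset.dvd_sum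
  intro i _
  rw [← mul_sub]
  exact Dvd.dvd.mul_left (hw.trans (sub_dvd_pow_sub_pow _ _ _)) _

/-- sign of the Taylor coefficients far out -/
theorem pc_sign (a : ℕ → ℤ) (h l : ℕ) (hl : l ≤ h) (ha : 0 < a h) (ε v : ℤ) (hε : ε = 1 ∨ ε = -1)
    (hv : (∑ i ∈ range (h + 1), |a i|) * 2 ^ h < v) : 0 < ε ^ (h - l) * pc a h l (ε * v) := by
  have hεε : ε * ε = 1 := by rcases hε with h | h <;> rw [h] <;> norm_num
  have hεabs : |ε| = 1 := by rcases hε with h | h <;> rw [h] <;> norm_num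
  set A : ℤ := ∑ i ∈ range (h + 1), |a i| with hA
  have hA0 : 0 ≤ A := Finset.sum_nonneg fun i _ => abs_nonneg _
  have hv0 : 0 < v := lt_of_le_of_lt (by positivity) hv
  unfold pc
  rw [Finset.sum_range_succ, mul_add]
  have e1 : ε ^ (h - l) * (a h * (h.choose l) * (ε * v) ^ (h - l)) = a h * (h.choose l) * v ^ (h - l) := by
    rw [mul_pow]
    have : ε ^ (h - l) * ε ^ (h - l) = 1 := by rw [← mul_pow, hεε, one_pow]
    linear_combination a h * (h.choose l) * v ^ (h - l) * this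
  rw [e1]
  have hch : (1 : ℤ) ≤ h.choose l := by exact_mod_cast Nat.choose_pos hl
  have hmain : v ^ (h - l) ≤ a h * (h.choose l) * v ^ (h - l) := by
    have h1 : (1 : ℤ) ≤ a h * (h.choose l) := by nlinarith
    have h2 : (0 : ℤ) ≤ v ^ (h - l) := by positivity
    nlinarith
  rcases hl.lt_or_eq with hlt | rfl
  · -- lower terms
    have hrest : |ε ^ (h - l) * ∑ i ∈ range h, a i * (i.choose l) * (ε * v) ^ (i - l)|
        ≤ A * 2 ^ h * v ^ (h - l - 1) := by
      rw [abs_mul, abs_pow, hεabs, one_pow, one_mul]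
      refine (Finset.abs_sum_le_sum_abs _ _).trans ?_
      have : ∀ i ∈ range h, |a i * (i.choose l) * (ε * v) ^ (i - l)| ≤ |a i| * (2 ^ h * v ^ (h - l - 1)) := by
        intro i hi
        have hi' : i < h := by simpa using hi
        rw [abs_mul, abs_mul, abs_pow, abs_mul, hεabs, one_mul, abs_of_pos hv0, mul_assoc]
        apply mul_le_mul_of_nonneg_left _ (abs_nonneg _)
        rcases Nat.lt_or_ge i l with hil | hil
        · rw [Nat.choose_eq_zero_of_lt hil]; simp; positivity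
        · rw [abs_of_nonneg (by positivity)]
          have h1 : ((i.choose l : ℕ) : ℤ) ≤ 2 ^ h := by
            have : i.choose l ≤ 2 ^ h :=
              (Nat.choose_le_two_pow i l).trans (Nat.pow_le_pow_right (by norm_num) hi'.le)
            exact_mod_cast this
          have h2 : v ^ (i - l) ≤ v ^ (h - l - 1) := pow_le_pow_right₀ (by omega) (by omega)
          exact mul_le_mul h1 h2 (by positivity) (by positivity)
      refine (Finset.sum_le_sum this).trans ?_
      rw [← Finset.sum_mul, ← mul_assoc]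
      apply mul_le_mul_of_nonneg_right _ (by positivity)
      apply mul_le_mul_of_nonneg_right _ (by positivity)
      rw [hA, Finset.sum_range_succ]
      have := abs_nonneg (a h)
      linarith
    have h3 : A * 2 ^ h * v ^ (h - l - 1) < v ^ (h - l) := by
      have e : v ^ (h - l) = v * v ^ (h - l - 1) := by
        rw [← pow_succ']; congr 1; omega
      rw [e]
      exact mul_lt_mul_of_pos_right hv (by positivity)
    have h4 := neg_abs_le (ε ^ (h - l) * ∑ i ∈ range h, a i * (i.choose l) * (ε * v) ^ (i - l))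
    linarith
  · have hz : ∑ i ∈ range l, a i * (i.choose l) * (ε * v) ^ (i - l) = 0 := by
      apply Finset.sum_eq_zero
      intro i hi
      rw [Nat.choose_eq_zero_of_lt (by simpa using hi)]; simp
    rw [hz]
    have : (0 : ℤ) < v ^ (l - l) := by positivity
    linarith

/-- `∑_l |p_l| w^l ≤ (∑ |a_i|) (z+w)^h` for the Taylor coefficients -/
theorem pc_bound (a : ℕ → ℤ) (h : ℕ) (z w : ℤ) (hz : 0 ≤ z) (hw : 0 ≤ w) (hzw : 1 ≤ z + w) :
    ∑ l ∈ range (h + 1), |pc a h l z| * w ^ l ≤ (∑ i ∈ range (h + 1), |a i|) * (z + w) ^ h := by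
  have h1 : ∀ l ∈ range (h + 1), |pc a h l z| * w ^ l ≤ pc (fun i => |a i|) h l z * w ^ l := by
    intro l _
    apply mul_le_mul_of_nonneg_right _ (by positivity)
    unfold pc
    refine (Finset.abs_sum_le_sum_abs _ _).trans (Finset.sum_le_sum ?_)
    intro i _
    rw [abs_mul, abs_mul, abs_pow, abs_of_nonneg hz, abs_of_nonneg (show (0:ℤ) ≤ (i.choose l : ℤ) by positivity)]
  refine (Finset.sum_le_sum h1).trans ?_
  rw [← taylor_sum, Finset.sum_mul]
  apply Finset.sum_le_sum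
  intro i hi
  apply mul_le_mul_of_nonneg_left _ (abs_nonneg _)
  exact pow_le_pow_right₀ hzw (by simpa [Nat.lt_succ_iff] using hi)

/-! ### case A polynomial -/

/-- `q^h F((xT-y)/q)` as a polynomial in `T` -/
noncomputable def GA (a : ℕ → ℤ) (h : ℕ) (q x y : ℤ) : ℤ[X] :=
  ∑ l ∈ range (h + 1), C (a l * q ^ (h - l)) * (C x * X - C y) ^ l

theorem GA_coeff (a : ℕ → ℤ) (h : ℕ) (q x y : ℤ) (j : ℕ) :
    (GA a h q x y).coeff j
      = ∑ l ∈ range (h + 1), a l * q ^ (h - l) * ((-y) ^ (l - j) * (l.choose j) * x ^ j) := by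
  unfold GA
  rw [finsetSum_coeff]
  apply Finset.sum_congr rfl
  intro l _
  rw [coeff_C_mul, coeff_lin]

theorem GA_coeff_zero (a : ℕ → ℤ) (h : ℕ) (q x y : ℤ) (j : ℕ) (hj : h < j) :
    (GA a h q x y).coeff j = 0 := by
  rw [GA_coeff]
  apply Finset.sum_eq_zero
  intro l hl
  have : l < j := by simp at hl; omega
  rw [Nat.choose_eq_zero_of_lt this]; simp

theorem GA_eval_sum (a : ℕ → ℤ) (h : ℕ) (q x y T : ℤ) :
    (GA a h q x y).eval T = ∑ j ∈ range (h + 1), (GA a h q x y).coeff j * T ^ j := by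
  apply eval_eq_sum_range'
  rw [Nat.lt_succ_iff, natDegree_le_iff_coeff_eq_zero]
  intro N hN
  exact GA_coeff_zero a h q x y N hN

theorem GA_eval (a : ℕ → ℤ) (h : ℕ) (q x y T n : ℤ) (hn : x * T - y = q * n) :
    (GA a h q x y).eval T = q ^ h * ∑ l ∈ range (h + 1), a l * n ^ l := by
  unfold GA
  rw [eval_finsetSum, Finset.mul_sum]
  apply Finset.sum_congr rfl
  intro l hl
  have hl' : l ≤ h := by simpa [Nat.lt_succ_iff] using hl
  simp only [eval_mul, eval_C, eval_pow, eval_sub, eval_X]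
  rw [hn, mul_pow]
  have : q ^ h = q ^ (h - l) * q ^ l := by rw [← pow_add]; congr 1; omega
  rw [this]; ring

theorem term_le (x y : ℤ) (hx : 0 ≤ x) (hy : 0 ≤ y) (l j : ℕ) :
    |(-y) ^ (l - j) * (l.choose j) * x ^ j| ≤ (x + y) ^ l := by
  rcases Nat.lt_or_ge l j with hlj | hlj
  · rw [Nat.choose_eq_zero_of_lt hlj]; simp; positivity
  · rw [abs_mul, abs_mul, abs_pow, abs_pow, abs_neg, abs_of_nonneg hx, abs_of_nonneg hy,
      abs_of_nonneg (show (0:ℤ) ≤ (l.choose j : ℤ) by positivity)]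
    rw [add_pow]
    have := Finset.single_le_sum (f := fun m => x ^ m * y ^ (l - m) * (l.choose m : ℤ))
      (s := range (l + 1)) (fun i _ => by positivity) (show j ∈ range (l + 1) by simp; omega)
    refine le_trans (le_of_eq ?_) this
    ring

theorem GA_coeff_le (a : ℕ → ℤ) (h : ℕ) (q x y : ℤ) (hq : 1 ≤ q) (hx : 0 ≤ x) (hy : 1 ≤ y) (j : ℕ) :
    |(GA a h q x y).coeff j| ≤ (∑ i ∈ range (h + 1), |a i|) * q ^ h * (x + y) ^ h := by
  rw [GA_coeff, Finset.sum_mul, Finset.sum_mul]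
  refine (Finset.abs_sum_le_sum_abs _ _).trans (Finset.sum_le_sum ?_)
  intro l hl
  have hl' : l ≤ h := by simpa [Nat.lt_succ_iff] using hl
  rw [abs_mul, abs_mul]
  have h1 := term_le x y hx (by omega) l j
  have h2 : (x + y) ^ l ≤ (x + y) ^ h := pow_le_pow_right₀ (by omega) hl'
  have h3 : |q ^ (h - l)| ≤ q ^ h := by
    rw [abs_of_nonneg (by positivity)]
    exact pow_le_pow_right₀ hq (by omega)
  have h4 : |a l| * |q ^ (h - l)| ≤ |a l| * q ^ h := mul_le_mul_of_nonneg_left h3 (abs_nonneg _)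
  exact mul_le_mul h4 (h1.trans h2) (abs_nonneg _) (by positivity)

theorem GA_coeff_top (a : ℕ → ℤ) (h : ℕ) (q x y : ℤ) : (GA a h q x y).coeff h = a h * x ^ h := by
  rw [GA_coeff, Finset.sum_range_succ]
  have : ∑ l ∈ range h, a l * q ^ (h - l) * ((-y) ^ (l - h) * (l.choose h) * x ^ h) = 0 := by
    apply Finset.sum_eq_zero
    intro l hl
    rw [Nat.choose_eq_zero_of_lt (by simpa using hl)]; simp
  rw [this]; simp

/-- one tail of `(xX-y)^h`, modulo `q` -/
theorem tail_lin (H j : ℕ) (hj : j ≤ H) (q x y : ℤ) (hx : q ∣ x - 1) (hy : q ∣ y - 1) :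
    q ∣ (∑ i ∈ Ico (j + 1) (H + 2), (-y) ^ (H + 1 - i) * ((H + 1).choose i) * x ^ i)
      - (-1) ^ (H - j) * (H.choose j) := by
  rw [← alt_tail H (H - j) j (by omega), ← Finset.sum_sub_distrib]
  apply Finset.dvd_sum
  intro i _
  have h1 : q ∣ (-y) ^ (H + 1 - i) - (-1) ^ (H + 1 - i) := by
    refine Dvd.dvd.trans ?_ (sub_dvd_pow_sub_pow _ _ _)
    have : -y - -1 = -(y - 1) := by ring
    rw [this]; exact (dvd_neg).2 hy
  have h2 : q ∣ x ^ i - 1 := by
    have := hx.trans (sub_dvd_pow_sub_pow x 1 i)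
    rwa [one_pow] at this
  have e : (-y) ^ (H + 1 - i) * ((H + 1).choose i) * x ^ i - (-1) ^ (H + 1 - i) * ((H + 1).choose i)
      = ((-y) ^ (H + 1 - i) - (-1) ^ (H + 1 - i)) * (((H + 1).choose i) * x ^ i)
        + (x ^ i - 1) * ((-1) ^ (H + 1 - i) * ((H + 1).choose i)) := by ring
  rw [e]
  exact dvd_add (Dvd.dvd.mul_right h1 _) (Dvd.dvd.mul_right h2 _)

theorem GA_tail (a : ℕ → ℤ) (H j : ℕ) (hj : j ≤ H) (q x y : ℤ) (hx : q ∣ x - 1) (hy : q ∣ y - 1) :
    q ∣ (∑ i ∈ Ico (j + 1) (H + 2), (GA a (H + 1) q x y).coeff i)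
      - a (H + 1) * ((-1) ^ (H - j) * (H.choose j)) := by
  simp only [GA_coeff]
  rw [Finset.sum_comm, Finset.sum_range_succ]
  have h1 : q ∣ ∑ l ∈ range (H + 1), ∑ i ∈ Ico (j + 1) (H + 2),
      a l * q ^ (H + 1 - l) * ((-y) ^ (l - i) * (l.choose i) * x ^ i) := by
    apply Finset.dvd_sum
    intro l hl
    apply Finset.dvd_sum
    intro i _
    apply Dvd.dvd.mul_right
    apply Dvd.dvd.mul_left
    apply dvd_pow_self
    simp at hl; omega
  have h2 := tail_lin H j hj q x y hx hy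
  have e : ∑ i ∈ Ico (j + 1) (H + 2), a (H + 1) * q ^ (H + 1 - (H + 1)) *
      ((-y) ^ (H + 1 - i) * ((H + 1).choose i) * x ^ i)
      = a (H + 1) * ∑ i ∈ Ico (j + 1) (H + 2), (-y) ^ (H + 1 - i) * ((H + 1).choose i) * x ^ i := by
    rw [Finset.mul_sum]
    apply Finset.sum_congr rfl
    intro i _
    simp
  rw [e]
  have e2 : ∀ (u v w : ℤ), u + a (H + 1) * v - a (H + 1) * w = u + a (H + 1) * (v - w) := by
    intro u v w; ring
  rw [e2]
  exact dvd_add h1 (Dvd.dvd.mul_left h2 _)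

/-! ### case C polynomial -/

/-- `q^h ∑ p_l (T(xT-y)/q)^l` as a polynomial in `T` -/
noncomputable def GC (p : ℕ → ℤ) (h : ℕ) (q x y : ℤ) : ℤ[X] :=
  ∑ l ∈ range (h + 1), C (p l * q ^ (h - l)) * (X * (C x * X - C y)) ^ l

/-- the coefficient of `X^j` in `(X(xX-y))^l` -/
def lc (x y : ℤ) (l j : ℕ) : ℤ :=
  if l ≤ j then (-y) ^ (l - (j - l)) * (l.choose (j - l)) * x ^ (j - l) else 0

theorem GC_coeff (p : ℕ → ℤ) (h : ℕ) (q x y : ℤ) (j : ℕ) :
    (GC p h q x y).coeff j = ∑ l ∈ range (h + 1), p l * q ^ (h - l) * lc x y l j := by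
  unfold GC
  rw [finsetSum_coeff]
  apply Finset.sum_congr rfl
  intro l _
  rw [coeff_C_mul, mul_pow, coeff_X_pow_mul']
  unfold lc
  split_ifs with hlj
  · rw [coeff_lin]
  · rfl

theorem lc_zero (x y : ℤ) (l j : ℕ) (hj : 2 * l < j) : lc x y l j = 0 := by
  unfold lc
  rw [if_pos (by omega), Nat.choose_eq_zero_of_lt (by omega)]; simp

theorem GC_coeff_zero (p : ℕ → ℤ) (h : ℕ) (q x y : ℤ) (j : ℕ) (hj : 2 * h < j) :
    (GC p h q x y).coeff j = 0 := by
  rw [GC_coeff]
  apply Finset.sum_eq_zero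
  intro l hl
  rw [lc_zero x y l j (by simp at hl; omega)]; simp

theorem GC_eval_sum (p : ℕ → ℤ) (h : ℕ) (q x y T : ℤ) :
    (GC p h q x y).eval T = ∑ j ∈ range (2 * h + 1), (GC p h q x y).coeff j * T ^ j := by
  apply eval_eq_sum_range'
  rw [Nat.lt_succ_iff, natDegree_le_iff_coeff_eq_zero]
  intro N hN
  exact GC_coeff_zero p h q x y N hN

theorem GC_eval (p : ℕ → ℤ) (h : ℕ) (q x y T n : ℤ) (hn : T * (x * T - y) = q * n) :
    (GC p h q x y).eval T = q ^ h * ∑ l ∈ range (h + 1), p l * n ^ l := by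
  unfold GC
  rw [eval_finsetSum, Finset.mul_sum]
  apply Finset.sum_congr rfl
  intro l hl
  have hl' : l ≤ h := by simpa [Nat.lt_succ_iff] using hl
  simp only [eval_mul, eval_C, eval_pow, eval_sub, eval_X]
  rw [hn, mul_pow]
  have : q ^ h = q ^ (h - l) * q ^ l := by rw [← pow_add]; congr 1; omega
  rw [this]; ring

theorem lc_le (x y : ℤ) (hx : 0 ≤ x) (hy : 0 ≤ y) (l j : ℕ) : |lc x y l j| ≤ (x + y) ^ l := by
  unfold lc
  split_ifs
  · exact term_le x y hx hy l (j - l)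
  · simp; positivity

theorem GC_coeff_le (p : ℕ → ℤ) (h : ℕ) (q x y : ℤ) (hq : 1 ≤ q) (hx : 0 ≤ x) (hy : 0 ≤ y) (j : ℕ) :
    |(GC p h q x y).coeff j| ≤ q ^ h * ∑ l ∈ range (h + 1), |p l| * (x + y) ^ l := by
  rw [GC_coeff, Finset.mul_sum]
  refine (Finset.abs_sum_le_sum_abs _ _).trans (Finset.sum_le_sum ?_)
  intro l hl
  rw [abs_mul, abs_mul]
  have h3 : |q ^ (h - l)| ≤ q ^ h := by
    rw [abs_of_nonneg (by positivity)]
    exact pow_le_pow_right₀ hq (by omega)
  have h4 : |p l| * |q ^ (h - l)| ≤ |p l| * q ^ h := mul_le_mul_of_nonneg_left h3 (abs_nonneg _)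
  refine (mul_le_mul h4 (lc_le x y hx hy l j) (abs_nonneg _) (by positivity)).trans (le_of_eq ?_)
  ring

theorem GC_coeff_top (p : ℕ → ℤ) (h : ℕ) (q x y : ℤ) : (GC p h q x y).coeff (2 * h) = p h * x ^ h := by
  rw [GC_coeff, Finset.sum_range_succ]
  have : ∑ l ∈ range h, p l * q ^ (h - l) * lc x y l (2 * h) = 0 := by
    apply Finset.sum_eq_zero
    intro l hl
    rw [lc_zero x y l (2 * h) (by simp at hl; omega)]; simp
  rw [this]
  unfold lc
  have e : 2 * h - h = h := by omega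
  rw [if_pos (by omega), e]; simp

theorem GC_coeff_bot (p : ℕ → ℤ) (h : ℕ) (q x y : ℤ) : (GC p h q x y).coeff 0 = p 0 * q ^ h := by
  rw [GC_coeff, Finset.sum_eq_single 0]
  · simp [lc]
  · intro l _ hl
    unfold lc
    rw [if_neg (by omega)]; simp
  · intro h0; simp at h0

/-- heads of the case C polynomial -/
theorem GC_head (p : ℕ → ℤ) (h j : ℕ) (hj : j ≤ h) (q x y : ℤ) :
    q ^ (h - j + 1) ∣ (∑ i ∈ range (j + 1), (GC p h q x y).coeff i) - p j * q ^ (h - j) * (-y) ^ j := by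
  simp only [GC_coeff]
  rw [Finset.sum_comm]
  have hsplit : ∑ l ∈ range (h + 1), ∑ i ∈ range (j + 1), p l * q ^ (h - l) * lc x y l i
      = ∑ l ∈ range j, ∑ i ∈ range (j + 1), p l * q ^ (h - l) * lc x y l i
        + p j * q ^ (h - j) * (-y) ^ j := by
    rw [← Finset.sum_subset (s₁ := range (j + 1)) (s₂ := range (h + 1))]
    · rw [Finset.sum_range_succ]
      congr 1
      rw [Finset.sum_eq_single j]
      · simp [lc]
      · intro i hi hij
        unfold lc
        rw [if_neg (by simp at hi; omega)]; simp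
      · intro hj'; simp at hj'
    · intro l hl; simp at hl ⊢; omega
    · intro l _ hl
      apply Finset.sum_eq_zero
      intro i hi
      unfold lc
      rw [if_neg (by simp at hi hl; omega)]; simp
  rw [hsplit, add_sub_cancel_right]
  apply Finset.dvd_sum
  intro l hl
  apply Finset.dvd_sum
  intro i _
  apply Dvd.dvd.mul_right
  apply Dvd.dvd.mul_left
  apply pow_dvd_pow
  simp at hl; omega

/-- high tails of the case C polynomial -/
theorem GC_tail (p : ℕ → ℤ) (H j : ℕ) (hj : j ≤ H) (q x y : ℤ) (hx : q ∣ x - 1) (hy : q ∣ y - 1) :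
    q ∣ (∑ i ∈ Ico (H + 1 + (j + 1)) (2 * (H + 1) + 1), (GC p (H + 1) q x y).coeff i)
      - p (H + 1) * ((-1) ^ (H - j) * (H.choose j)) := by
  simp only [GC_coeff]
  rw [Finset.sum_comm, Finset.sum_range_succ]
  have h1 : q ∣ ∑ l ∈ range (H + 1), ∑ i ∈ Ico (H + 1 + (j + 1)) (2 * (H + 1) + 1),
      p l * q ^ (H + 1 - l) * lc x y l i := by
    apply Finset.dvd_sum
    intro l hl
    apply Finset.dvd_sum
    intro i _
    apply Dvd.dvd.mul_right
    apply Dvd.dvd.mul_left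
    apply dvd_pow_self
    simp at hl; omega
  have h2 := tail_lin H j hj q x y hx hy
  have e : ∑ i ∈ Ico (H + 1 + (j + 1)) (2 * (H + 1) + 1), p (H + 1) * q ^ (H + 1 - (H + 1)) *
      lc x y (H + 1) i
      = p (H + 1) * ∑ i ∈ Ico (j + 1) (H + 2), (-y) ^ (H + 1 - i) * ((H + 1).choose i) * x ^ i := by
    rw [Finset.mul_sum]
    have hI : Ico (H + 1 + (j + 1)) (2 * (H + 1) + 1) = Ico (j + 1 + (H + 1)) (H + 2 + (H + 1)) := by
      congr 1 <;> ring
    rw [hI, ← Finset.sum_Ico_add' (fun i => p (H + 1) * q ^ (H + 1 - (H + 1)) * lc x y (H + 1) i)]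
    apply Finset.sum_congr rfl
    intro i _
    unfold lc
    rw [if_pos (by omega)]
    have : i + (H + 1) - (H + 1) = i := by omega
    rw [this]; simp
  rw [e]
  have e2 : ∀ (u v w : ℤ), u + p (H + 1) * v - p (H + 1) * w = u + p (H + 1) * (v - w) := by
    intro u v w; ring
  rw [e2]
  exact dvd_add h1 (Dvd.dvd.mul_left h2 _)

end H2TM
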