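import Pool.Agent.H2.TM.Shift
import Pool.Agent.H2.TM.Poly

/-! The three flips. -/

namespace H2TM

open Finset Polynomial

theorem not_dvd_small (e : ℕ) (b : ℤ) (s : ℕ) (c : ℕ) (hb : 0 < b) (hc : 0 < c) (hlt : b * c < 3 ^ e) :
    ¬ (3 ^ e : ℤ) ∣ b * ((-1) ^ s * (c : ℤ)) := by
  intro hd
  have h1 : (3 ^ e : ℤ) ∣ b * c := by
    have : b * ((-1) ^ s * (c : ℤ)) = (-1) ^ s * (b * c) := by ring
    rw [this] at hd
    have hu : IsUnit ((-1 : ℤ) ^ s) := (isUnit_neg_one).pow s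
    exact (hu.dvd_mul_left).1 hd
  have hpos : 0 < b * (c : ℤ) := mul_pos hb (by exact_mod_cast hc)
  exact absurd (Int.le_of_dvd hpos h1) (not_le.2 hlt)

theorem flipA (a : ℕ → ℤ) (H e : ℕ) (hodd : Odd (H + 1)) (ha : 0 < a (H + 1)) (he : 1 ≤ e)
    (hae : a (H + 1) * 2 ^ H < 3 ^ e) (k : ℕ) (hk : 2 * 3 ^ (e * (H + 1) - 1) ∣ k)
    (x y N1 N2 : ℤ) (hx : (3 ^ e : ℤ) ∣ x - 1) (hy : (3 ^ e : ℤ) ∣ y - 1) (hx1 : 1 ≤ x) (hy1 : 1 ≤ y)
    (hsize : (∑ i ∈ range (H + 1 + 1), |a i|) * (3 ^ e) ^ (H + 1) * (x + y) ^ (H + 1) + (3 ^ e) ^ (H + 1)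
      < (2 : ℤ) ^ k)
    (hN1 : x * 2 ^ k - y = 3 ^ e * N1)
    (hN2 : x * 2 ^ (k + 2 * 3 ^ (e * (H + 1) - 1)) - y = 3 ^ e * N2) :
    0 ≤ ∑ l ∈ range (H + 1 + 1), a l * N1 ^ l ∧ 0 ≤ ∑ l ∈ range (H + 1 + 1), a l * N2 ^ l ∧
      (s2 (∑ l ∈ range (H + 1 + 1), a l * N2 ^ l).toNat) % 2
        ≠ (s2 (∑ l ∈ range (H + 1 + 1), a l * N1 ^ l).toNat) % 2 := by
  obtain ⟨n, hn⟩ : ∃ n, e * (H + 1) = n + 1 := ⟨e * (H + 1) - 1, by
    have : 1 ≤ e * (H + 1) := Nat.mul_pos he (by omega)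
    omega⟩
  have hn' : e * (H + 1) - 1 = n := by omega
  rw [hn'] at hk hN2
  have hQ : (3 ^ (n + 1) : ℤ) = (3 ^ e) ^ (H + 1) := by rw [← hn, pow_mul]
  have hq1 : (1 : ℤ) ≤ 3 ^ e := one_le_pow₀ (by norm_num)
  have htail : ∀ j < H + 1, ¬ (3 ^ (n + 1) : ℤ) ∣
      ∑ i ∈ Ico (j + 1) (H + 1 + 1), (GA a (H + 1) (3 ^ e) x y).coeff i := by
    intro j hj hd
    have h1 : (3 ^ e : ℤ) ∣ 3 ^ (n + 1) := by rw [hQ]; exact dvd_pow_self _ (by omega)
    have h2 := h1.trans hd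
    have h3 := GA_tail a H j (by omega) (3 ^ e) x y hx hy
    have h4 := (dvd_sub_right h2).1 h3
    refine not_dvd_small e (a (H + 1)) (H - j) (H.choose j) ha (Nat.choose_pos (by omega)) ?_ h4
    refine lt_of_le_of_lt ?_ hae
    apply mul_le_mul_of_nonneg_left _ ha.le
    exact_mod_cast Nat.choose_le_two_pow H j
  have key := shift_three n k (H + 1) (fun j => (GA a (H + 1) (3 ^ e) x y).coeff j)
    (∑ l ∈ range (H + 1 + 1), a l * N1 ^ l) (∑ l ∈ range (H + 1 + 1), a l * N2 ^ l) hk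
    (by rw [hQ, ← GA_eval a (H + 1) (3 ^ e) x y (2 ^ k) N1 hN1, GA_eval_sum])
    (by rw [hQ, ← GA_eval a (H + 1) (3 ^ e) x y (2 ^ (k + 2 * 3 ^ n)) N2 hN2, GA_eval_sum])
    (by
      intro j _
      rw [hQ]
      refine lt_of_le_of_lt ?_ hsize
      have := GA_coeff_le a (H + 1) (3 ^ e) x y hq1 (by omega) hy1 j
      linarith)
    (by rw [GA_coeff_top]; positivity)
    (by intro j hj hd; exact absurd hd (htail j hj))
  refine ⟨key.1, key.2.1, ?_⟩
  rw [key.2.2, Finset.filter_true_of_mem (by intro j hj; exact htail j (by simpa using hj)), Finset.card_range]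
  have h3 : Odd (3 ^ n * (H + 1)) := Odd.mul (Odd.pow (by decide)) hodd
  obtain ⟨r, hr⟩ := h3
  rw [hr]
  omega

theorem flipC (a : ℕ → ℤ) (H e : ℕ) (ha : 0 < a (H + 1)) (he : 1 ≤ e)
    (hae : a (H + 1) * 2 ^ H < 3 ^ e) (k : ℕ) (hk : 2 * 3 ^ (e * (H + 1) - 1) ∣ k)
    (x y z N1 N2 : ℤ) (hx : (3 ^ e : ℤ) ∣ x - 1) (hy : (3 ^ e : ℤ) ∣ y - 1) (hx1 : 1 ≤ x) (hy1 : 1 ≤ y)
    (hz1 : 1 ≤ z) (hz0 : 0 ≤ pc a (H + 1) 0 z)
    (hpz : ∀ l ≤ H + 1, ¬ (3 ^ e : ℤ) ∣ pc a (H + 1) l z)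
    (hsize : (∑ i ∈ range (H + 1 + 1), |a i|) * (3 ^ e) ^ (H + 1) * (x + y + z) ^ (H + 1) + (3 ^ e) ^ (H + 1)
      < (2 : ℤ) ^ k)
    (hN1 : 2 ^ k * (x * 2 ^ k - y) = 3 ^ e * N1)
    (hN2 : 2 ^ (k + 2 * 3 ^ (e * (H + 1) - 1)) * (x * 2 ^ (k + 2 * 3 ^ (e * (H + 1) - 1)) - y) = 3 ^ e * N2) :
    0 ≤ ∑ l ∈ range (H + 1 + 1), a l * (z + N1) ^ l ∧ 0 ≤ ∑ l ∈ range (H + 1 + 1), a l * (z + N2) ^ l ∧
      (s2 (∑ l ∈ range (H + 1 + 1), a l * (z + N2) ^ l).toNat) % 2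
        ≠ (s2 (∑ l ∈ range (H + 1 + 1), a l * (z + N1) ^ l).toNat) % 2 := by
  rw [taylor_sum, taylor_sum]
  obtain ⟨n, hn⟩ : ∃ n, e * (H + 1) = n + 1 := ⟨e * (H + 1) - 1, by
    have : 1 ≤ e * (H + 1) := Nat.mul_pos he (by omega)
    omega⟩
  have hn' : e * (H + 1) - 1 = n := by omega
  rw [hn'] at hk hN2
  have hQ : (3 ^ (n + 1) : ℤ) = (3 ^ e) ^ (H + 1) := by rw [← hn, pow_mul]
  have hq1 : (1 : ℤ) ≤ 3 ^ e := one_le_pow₀ (by norm_num)
  have hq0 : (3 ^ e : ℤ) ≠ 0 := by positivity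
  set p : ℕ → ℤ := fun l => pc a (H + 1) l z with hp
  have hptop : p (H + 1) = a (H + 1) := by
    simp only [hp, pc]
    rw [Finset.sum_range_succ]
    have : ∑ i ∈ range (H + 1), a i * (i.choose (H + 1)) * z ^ (i - (H + 1)) = 0 := by
      apply Finset.sum_eq_zero
      intro i hi
      rw [Nat.choose_eq_zero_of_lt (by simpa using hi)]; simp
    rw [this]; simp
  have htot : (3 ^ (n + 1) : ℤ) ∣ ∑ i ∈ range (2 * (H + 1) + 1), (GC p (H + 1) (3 ^ e) x y).coeff i := by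
    have hxy : (3 ^ e : ℤ) ∣ x - y := by
      have : x - y = (x - 1) - (y - 1) := by ring
      rw [this]; exact dvd_sub hx hy
    obtain ⟨d, hd⟩ := hxy
    have h1 := GC_eval p (H + 1) (3 ^ e) x y 1 d (by rw [← hd]; ring)
    rw [GC_eval_sum] at h1
    simp only [one_pow, mul_one] at h1
    rw [h1, hQ]; exact dvd_mul_right _ _
  have hsplit : ∀ j ≤ 2 * (H + 1) + 1, ∑ i ∈ Ico j (2 * (H + 1) + 1), (GC p (H + 1) (3 ^ e) x y).coeff i
      = ∑ i ∈ range (2 * (H + 1) + 1), (GC p (H + 1) (3 ^ e) x y).coeff i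
        - ∑ i ∈ range j, (GC p (H + 1) (3 ^ e) x y).coeff i := by
    intro j hj
    rw [Finset.sum_Ico_eq_sub _ hj]
  have htail0 : (3 ^ (n + 1) : ℤ) ∣ ∑ i ∈ Ico 1 (2 * (H + 1) + 1), (GC p (H + 1) (3 ^ e) x y).coeff i := by
    rw [hsplit 1 (by omega)]
    apply dvd_sub htot
    rw [Finset.sum_range_one, GC_coeff_bot, hQ]
    exact dvd_mul_left _ _
  have htail : ∀ j < 2 * (H + 1), 1 ≤ j → ¬ (3 ^ (n + 1) : ℤ) ∣
      ∑ i ∈ Ico (j + 1) (2 * (H + 1) + 1), (GC p (H + 1) (3 ^ e) x y).coeff i := by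
    intro j hj hj1 hd
    rcases Nat.lt_or_ge j (H + 2) with hjh | hjh
    · have hjh' : j ≤ H + 1 := by omega
      rw [hsplit (j + 1) (by omega)] at hd
      have h1 := (dvd_sub_right htot).1 hd
      have h2 : ((3 ^ e : ℤ)) ^ (H + 1 - j + 1) ∣ 3 ^ (n + 1) := by
        rw [hQ]; exact pow_dvd_pow _ (by omega)
      have h3 := h2.trans h1
      have h4 := GC_head p (H + 1) j hjh' (3 ^ e) x y
      have h5 := (dvd_sub_right h3).1 h4
      have h6 : (3 ^ e : ℤ) ∣ p j * (-y) ^ j := by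
        have e1 : p j * (3 ^ e) ^ (H + 1 - j) * (-y) ^ j = (3 ^ e) ^ (H + 1 - j) * (p j * (-y) ^ j) := by ring
        rw [e1, pow_succ] at h5
        exact (mul_dvd_mul_iff_left (pow_ne_zero _ hq0)).1 h5
      apply hpz j hjh'
      change (3 ^ e : ℤ) ∣ p j
      have h7 : (3 ^ e : ℤ) ∣ (-y) ^ j - (-1) ^ j := by
        refine Dvd.dvd.trans ?_ (sub_dvd_pow_sub_pow _ _ _)
        have : -y - -1 = -(y - 1) := by ring
        rw [this]; exact (dvd_neg).2 hy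
      have h8 : (3 ^ e : ℤ) ∣ p j * (-1) ^ j := by
        have : p j * (-1) ^ j = p j * (-y) ^ j - p j * ((-y) ^ j - (-1) ^ j) := by ring
        rw [this]; exact dvd_sub h6 (Dvd.dvd.mul_left h7 _)
      have hu : IsUnit ((-1 : ℤ) ^ j) := (isUnit_neg_one).pow j
      exact (hu.dvd_mul_right).1 h8
    · have h1 : (3 ^ e : ℤ) ∣ 3 ^ (n + 1) := by rw [hQ]; exact dvd_pow_self _ (by omega)
      have h2 := h1.trans hd
      obtain ⟨j', hj'⟩ : ∃ j', j = H + 1 + j' := ⟨j - (H + 1), by omega⟩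
      subst hj'
      have h3 := GC_tail p H j' (by omega) (3 ^ e) x y hx hy
      rw [show H + 1 + j' + 1 = H + 1 + (j' + 1) by ring] at h2
      have h4 := (dvd_sub_right h2).1 h3
      rw [hptop] at h4
      refine not_dvd_small e (a (H + 1)) (H - j') (H.choose j') ha (Nat.choose_pos (by omega)) ?_ h4
      refine lt_of_le_of_lt ?_ hae
      apply mul_le_mul_of_nonneg_left _ ha.le
      exact_mod_cast Nat.choose_le_two_pow H j'
  have key := shift_three n k (2 * (H + 1)) (fun j => (GC p (H + 1) (3 ^ e) x y).coeff j)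
    (∑ l ∈ range (H + 1 + 1), p l * N1 ^ l) (∑ l ∈ range (H + 1 + 1), p l * N2 ^ l) hk
    (by rw [hQ, ← GC_eval p (H + 1) (3 ^ e) x y (2 ^ k) N1 hN1, GC_eval_sum])
    (by rw [hQ, ← GC_eval p (H + 1) (3 ^ e) x y (2 ^ (k + 2 * 3 ^ n)) N2 hN2, GC_eval_sum])
    (by
      intro j _
      rw [hQ]
      refine lt_of_le_of_lt ?_ hsize
      have h1 := GC_coeff_le p (H + 1) (3 ^ e) x y hq1 (by omega) (by omega) j
      have h2 := pc_bound a (H + 1) z (x + y) (by omega) (by omega) (by omega)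
      have h3 : (z + (x + y)) = x + y + z := by ring
      rw [h3] at h2
      have h4 := mul_le_mul_of_nonneg_left h2 (show (0:ℤ) ≤ (3 ^ e) ^ (H + 1) by positivity)
      have h5 : (3 ^ e : ℤ) ^ (H + 1) * ((∑ i ∈ range (H + 1 + 1), |a i|) * (x + y + z) ^ (H + 1))
        = (∑ i ∈ range (H + 1 + 1), |a i|) * (3 ^ e) ^ (H + 1) * (x + y + z) ^ (H + 1) := by ring
      rw [h5] at h4
      linarith)
    (by rw [GC_coeff_top, hptop]; positivity)
    (by
      intro j hj hd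
      rcases Nat.eq_zero_or_pos j with rfl | hpos
      · have : (3 ^ (n + 1) : ℤ) ∣ ∑ i ∈ Ico 0 (2 * (H + 1) + 1), (GC p (H + 1) (3 ^ e) x y).coeff i := by
          rw [← Finset.range_eq_Ico]; exact htot
        rw [Int.emod_eq_zero_of_dvd this, GC_coeff_bot]
        exact mul_nonneg hz0 (by positivity)
      · exact absurd hd (htail j hj hpos))
  refine ⟨key.1, key.2.1, ?_⟩
  change (s2 (∑ l ∈ range (H + 1 + 1), p l * N2 ^ l).toNat) % 2
        ≠ (s2 (∑ l ∈ range (H + 1 + 1), p l * N1 ^ l).toNat) % 2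
  rw [key.2.2]
  have hcard : ((range (2 * (H + 1))).filter (fun j => ¬ (3 ^ (n + 1) : ℤ) ∣
      ∑ i ∈ Ico (j + 1) (2 * (H + 1) + 1), (GC p (H + 1) (3 ^ e) x y).coeff i)) = Ico 1 (2 * (H + 1)) := by
    ext j
    simp only [mem_filter, mem_range, mem_Ico]
    constructor
    · rintro ⟨h1, h2⟩
      refine ⟨?_, h1⟩
      rcases Nat.eq_zero_or_pos j with rfl | hpos
      · exact absurd htail0 h2
      · exact hpos
    · rintro ⟨h1, h2⟩
      exact ⟨h2, htail j h2 h1⟩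
  rw [hcard, Nat.card_Ico]
  have h3 : Odd (3 ^ n * (2 * (H + 1) - 1)) := Odd.mul (Odd.pow (by decide)) ⟨H, by omega⟩
  obtain ⟨r, hr⟩ := h3
  rw [hr]
  omega

theorem flipB (a : ℕ → ℤ) (h : ℕ) (h4 : h % 4 = 2) (ha : 0 < a h) (k : ℕ)
    (x y N1 N2 : ℤ) (hx1 : 1 ≤ x) (hy1 : (∑ i ∈ range (h + 1), |a i|) * 2 ^ h < y)
    (hsize : (∑ i ∈ range (h + 1), |a i|) * (x + y) ^ h + 1 < (2 : ℤ) ^ k)
    (hN1 : x * 2 ^ k - y = N1) (hN2 : x * 2 ^ (k + 1) - y = N2) :
    0 ≤ ∑ l ∈ range (h + 1), a l * N1 ^ l ∧ 0 ≤ ∑ l ∈ range (h + 1), a l * N2 ^ l ∧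
      (s2 (∑ l ∈ range (h + 1), a l * N2 ^ l).toNat) % 2
        ≠ (s2 (∑ l ∈ range (h + 1), a l * N1 ^ l).toNat) % 2 := by
  have hA : 0 ≤ ∑ i ∈ range (h + 1), |a i| := Finset.sum_nonneg fun i _ => abs_nonneg _
  have hy : 1 ≤ y := by
    have : 0 ≤ (∑ i ∈ range (h + 1), |a i|) * 2 ^ h := by positivity
    omega
  set g : ℕ → ℤ := fun j => (GA a h 1 x y).coeff j with hg
  have hgpc : ∀ j, g j = x ^ j * pc a h j (-y) := by
    intro j
    simp only [hg]
    rw [GA_coeff]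
    unfold pc
    rw [Finset.mul_sum]
    apply Finset.sum_congr rfl
    intro l _
    rw [one_pow]; ring
  have hsgn : ∀ j ≤ h, 0 < (-1) ^ (h - j) * g j := by
    intro j hj
    have h1 := pc_sign a h j hj ha (-1) y (Or.inr rfl) hy1
    have h2 : (-1 : ℤ) * y = -y := by ring
    rw [h2] at h1
    rw [hgpc]
    have : (-1) ^ (h - j) * (x ^ j * pc a h j (-y)) = x ^ j * ((-1) ^ (h - j) * pc a h j (-y)) := by ring
    rw [this]; exact mul_pos (by positivity) h1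
  have hev : ∀ j ≤ h, Even j → 1 ≤ g j := by
    intro j hj hje
    have h1 := hsgn j hj
    have h2 : Even (h - j) := by
      obtain ⟨r, hr⟩ := hje
      exact ⟨(h - j) / 2, by omega⟩
    rw [h2.neg_one_pow, one_mul] at h1
    omega
  have hod : ∀ j ≤ h, Odd j → g j < 0 := by
    intro j hj hje
    have h1 := hsgn j hj
    have h2 : Odd (h - j) := by
      obtain ⟨r, hr⟩ := hje
      exact ⟨(h - j) / 2, by omega⟩
    rw [h2.neg_one_pow] at h1
    linarith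
  have hbd : ∀ j, |g j| + 1 < 2 ^ k := by
    intro j
    refine lt_of_le_of_lt ?_ hsize
    have := GA_coeff_le a h 1 x y le_rfl (by omega) hy j
    rw [one_pow, mul_one] at this
    linarith
  set R : ℕ → ℕ := fun j => if 2 ≤ j ∧ j ≤ h ∧ Even j then 1 else 0 with hR
  have hT : (0 : ℤ) < 2 ^ k := by positivity
  have hbb : ∀ j ≤ h, 0 ≤ (R (j + 1) : ℤ) * 2 ^ k + g j - R j := by
    intro j hj
    rcases Nat.even_or_odd j with hje | hje
    · have h1 : R j ≤ 1 := by simp only [hR]; split_ifs <;> omega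
      have h2 := hev j hj hje
      have h3 : (0 : ℤ) ≤ R (j + 1) * 2 ^ k := by positivity
      have h4 : (R j : ℤ) ≤ 1 := by exact_mod_cast h1
      linarith
    · have h1 : R j = 0 := by
        simp only [hR]; rw [if_neg]; rintro ⟨_, _, h3⟩
        exact (Nat.not_even_iff_odd.2 hje) h3
      have hjlt : j < h := by
        rcases hj.lt_or_eq with hlt | heq
        · exact hlt
        · exfalso
          obtain ⟨r, hr⟩ := hje
          omega
      have h2 : R (j + 1) = 1 := by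
        simp only [hR]; rw [if_pos]
        obtain ⟨r, hr⟩ := hje
        exact ⟨by omega, by omega, ⟨r + 1, by omega⟩⟩
      rw [h1, h2]
      have := hbd j
      have h5 := neg_abs_le (g j)
      push_cast
      linarith
  have hbT : ∀ j < h, (R (j + 1) : ℤ) * 2 ^ k + g j - R j < 2 ^ k := by
    intro j hj
    rcases Nat.even_or_odd j with hje | hje
    · have h1 : R (j + 1) = 0 := by
        simp only [hR]; rw [if_neg]; rintro ⟨_, _, h3⟩
        exact (Nat.not_even_iff_odd.2 (hje.add_one)) h3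
      rw [h1]
      have := hbd j
      have h5 := le_abs_self (g j)
      have h6 : (0 : ℤ) ≤ R j := by positivity
      push_cast
      linarith
    · have h2 : (R (j + 1) : ℤ) ≤ 1 := by
        have : R (j + 1) ≤ 1 := by simp only [hR]; split_ifs <;> omega
        exact_mod_cast this
      have h3 := hod j hj.le hje
      have h6 : (0 : ℤ) ≤ R j := by positivity
      nlinarith
  have hev1 : ((1 : ℕ) : ℤ) * (∑ l ∈ range (h + 1), a l * N1 ^ l)
      = ∑ j ∈ range (h + 1), g j * ((2 : ℤ) ^ k) ^ j := by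
    have := GA_eval a h 1 x y (2 ^ k) N1 (by rw [hN1]; ring)
    rw [one_pow] at this
    push_cast
    rw [← this, GA_eval_sum]
  have hev2 : ((1 : ℕ) : ℤ) * (∑ l ∈ range (h + 1), a l * N2 ^ l)
      = ∑ j ∈ range (h + 1), g j * ((2 : ℤ) ^ (k + 1)) ^ j := by
    have := GA_eval a h 1 x y (2 ^ (k + 1)) N2 (by rw [hN2]; ring)
    rw [one_pow] at this
    push_cast
    rw [← this, GA_eval_sum]
  have key := s2_shift 1 1 k h 1 (by norm_num) (by norm_num) g R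
    (fun j => ((R (j + 1) : ℤ) * 2 ^ k + g j - R j).toNat)
    (by simp [hR])
    (by
      simp only [hR]; rw [if_neg]; omega)
    (by intro j; simp only [hR]; split_ifs <;> omega)
    (by
      intro j hj
      rw [Int.toNat_of_nonneg (hbb j hj)]; push_cast; ring)
    (by
      intro j hj
      have h1 := hbT j hj
      have h2 := hbb j hj.le
      zify
      rw [Int.toNat_of_nonneg h2]; exact h1)
    _ _ hev1 hev2
  refine ⟨key.1, key.2.1, ?_⟩
  rw [key.2.2]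
  have hsum : ∑ j ∈ range h, s2 (1 * R (j + 1)) = h / 2 := by
    have h1 : ∀ j ∈ range h, s2 (1 * R (j + 1)) = if Odd j then 1 else 0 := by
      intro j hj
      have hj' : j < h := by simpa using hj
      by_cases hjo : Odd j
      · have h2 : R (j + 1) = 1 := by
          simp only [hR]; rw [if_pos]
          obtain ⟨r, hr⟩ := hjo
          exact ⟨by omega, by omega, ⟨r + 1, by omega⟩⟩
        rw [h2, if_pos hjo]; simp [s2_one]
      · have h2 : R (j + 1) = 0 := by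
          simp only [hR]; rw [if_neg]; rintro ⟨_, _, h3⟩
          exact (Nat.not_even_iff_odd.2 ((Nat.not_odd_iff_even.1 hjo).add_one)) h3
        rw [h2, if_neg hjo]; simp [s2_zero]
    rw [Finset.sum_congr rfl h1]
    clear * -
    have h2 : ∀ h : ℕ, ∑ j ∈ range h, (if Odd j then 1 else 0) = h / 2 := by
      intro h
      induction h with
      | zero => simp
      | succ h ih =>
        rw [Finset.sum_range_succ, ih]
        split_ifs with ho
        · obtain ⟨r, hr⟩ := ho; omega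
        · have := Nat.not_odd_iff_even.1 ho
          obtain ⟨r, hr⟩ := this; omega
    exact h2 h
  rw [hsum]
  omega

end H2TM
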