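import Mathlib

/-! Counting and growth lemmas. -/

namespace H2TM

theorem growth (f : ℕ → ℕ) (hf : Monotone f) (B lam s0 : ℕ) (hB : 0 < B) (hlam : 2 ≤ lam)
    (c θ : ℝ) (hc : 0 < c) (hθ : 0 < θ)
    (h : ∀ s ≥ s0, c * ((lam : ℝ) ^ s) ^ θ ≤ f (B * lam ^ s)) :
    ∃ c' > (0 : ℝ), ∃ N0 : ℕ, ∀ N ≥ N0, c' * (N : ℝ) ^ θ ≤ f N := by
  have hBr : (0 : ℝ) < B := by exact_mod_cast hB
  have hlr : (0 : ℝ) < lam := by
    have : 0 < lam := by omega
    exact_mod_cast this
  have hD : (0 : ℝ) < ((B : ℝ) * lam) ^ θ := Real.rpow_pos_of_pos (mul_pos hBr hlr) _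
  refine ⟨c / ((B : ℝ) * lam) ^ θ, div_pos hc hD, B * lam ^ s0, ?_⟩
  intro N hN
  have h1 : lam ^ s0 ≤ N / B := by
    rw [Nat.le_div_iff_mul_le hB]; rw [mul_comm]; exact hN
  have hne : N / B ≠ 0 := by
    have : 0 < lam ^ s0 := by positivity
    omega
  set s := Nat.log lam (N / B) with hs
  have hs0 : s0 ≤ s := by
    rw [hs]; exact Nat.le_log_of_pow_le (by omega) h1
  have hle : lam ^ s ≤ N / B := Nat.pow_log_le_self lam hne
  have hlt : N / B < lam ^ (s + 1) := Nat.lt_pow_succ_log_self (by omega) _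
  have hle' : B * lam ^ s ≤ N := by
    have := (Nat.le_div_iff_mul_le hB).1 hle
    rw [mul_comm]; exact this
  have hlt' : N < B * lam ^ (s + 1) := by
    have := (Nat.div_lt_iff_lt_mul hB).1 hlt
    rw [mul_comm]; exact this
  have hfs : c * ((lam : ℝ) ^ s) ^ θ ≤ f N := (h s hs0).trans (by exact_mod_cast hf hle')
  refine le_trans ?_ hfs
  rw [div_mul_eq_mul_div, div_le_iff₀ hD, mul_assoc]
  apply mul_le_mul_of_nonneg_left _ hc.le
  rw [← Real.mul_rpow (by positivity) (by positivity)]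
  apply Real.rpow_le_rpow (by positivity) _ hθ.le
  have : (N : ℝ) < (B : ℝ) * lam ^ (s + 1) := by exact_mod_cast hlt'
  have e : (lam : ℝ) ^ s * ((B : ℝ) * lam) = (B : ℝ) * lam ^ (s + 1) := by rw [pow_succ]; ring
  rw [e]; exact this.le

theorem count_of_flip {ι : Type*} (V : Finset ι) (n1 n2 : ι → ℕ)
    (i1 : Set.InjOn n1 V) (i2 : Set.InjOn n2 V) (B : ℕ) (p : ℕ → Prop) [DecidablePred p]
    (h1 : ∀ v ∈ V, n1 v < B) (h2 : ∀ v ∈ V, n2 v < B)
    (hp : ∀ v ∈ V, p (n1 v) ∨ p (n2 v)) :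
    V.card ≤ 2 * ((Finset.range B).filter p).card := by
  classical
  have e : V = V.filter (fun v => p (n1 v)) ∪ V.filter (fun v => p (n2 v)) := by
    ext v
    simp only [Finset.mem_union, Finset.mem_filter]
    constructor
    · intro hv
      rcases hp v hv with h | h
      · exact Or.inl ⟨hv, h⟩
      · exact Or.inr ⟨hv, h⟩
    · rintro (h | h) <;> exact h.1
  have c1 : (V.filter (fun v => p (n1 v))).card ≤ ((Finset.range B).filter p).card := by
    apply Finset.card_le_card_of_injOn n1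
    · intro v hv
      have hv' := Finset.mem_filter.1 (Finset.mem_coe.1 hv)
      simp only [Finset.coe_filter, Finset.mem_range, Set.mem_ofPred_eq]
      exact ⟨h1 v hv'.1, hv'.2⟩
    · intro a ha b hb hab
      exact i1 (Finset.mem_filter.1 (Finset.mem_coe.1 ha)).1 (Finset.mem_filter.1 (Finset.mem_coe.1 hb)).1 hab
  have c2 : (V.filter (fun v => p (n2 v))).card ≤ ((Finset.range B).filter p).card := by
    apply Finset.card_le_card_of_injOn n2
    · intro v hv
      have hv' := Finset.mem_filter.1 (Finset.mem_coe.1 hv)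
      simp only [Finset.coe_filter, Finset.mem_range, Set.mem_ofPred_eq]
      exact ⟨h2 v hv'.1, hv'.2⟩
    · intro a ha b hb hab
      exact i2 (Finset.mem_filter.1 (Finset.mem_coe.1 ha)).1 (Finset.mem_filter.1 (Finset.mem_coe.1 hb)).1 hab
  have := Finset.card_union_le (V.filter (fun v => p (n1 v))) (V.filter (fun v => p (n2 v)))
  rw [← e] at this
  omega

end H2TM
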