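import Pool.Agent.H2.TM.Flip
import Pool.Agent.H2.TM.Count

/-! The lower bound for integer polynomials. -/

namespace H2TM

open Finset

/-- the exponent -/
noncomputable def expo (h : ℕ) : ℝ := if 4 ∣ h then 3 / (2 * h + 1) else 2 / (h + 1)

/-- the property counted -/
def Hit (a : ℕ → ℤ) (h c n : ℕ) : Prop :=
  0 ≤ ∑ l ∈ range (h + 1), a l * (n : ℤ) ^ l ∧
    s2 (∑ l ∈ range (h + 1), a l * (n : ℤ) ^ l).toNat % 2 = c

theorem rpow_aux (X : ℝ) (hX : 0 ≤ X) (d u : ℕ) (hd : 0 < d) :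
    (X ^ d) ^ ((u : ℝ) / d) = X ^ u := by
  have hd' : (d : ℝ) ≠ 0 := by exact_mod_cast hd.ne'
  rw [← Real.rpow_natCast X d, ← Real.rpow_mul hX, mul_div_cancel₀ _ hd', Real.rpow_natCast]

theorem finish (p : ℕ → Prop) [DecidablePred p] (B L d u : ℕ) (hB : 0 < B) (hL : 1 ≤ L) (hd : 0 < d)
    (hu : 0 < u)
    (h : ∀ r : ℕ, (2 ^ (L * r)) ^ u ≤ 2 * ((range (B * (2 ^ (L * d)) ^ r)).filter p).card) :
    ∃ c' > (0 : ℝ), ∃ N0 : ℕ, ∀ N ≥ N0, c' * (N : ℝ) ^ ((u : ℝ) / d) ≤ ((range N).filter p).card := by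
  apply growth (fun N => ((range N).filter p).card) ?_ B (2 ^ (L * d)) 0 hB ?_ (1 / 2) ((u : ℝ) / d)
    (by norm_num) (by positivity)
  · intro r _
    have h1 := h r
    have h2 : (((2 ^ (L * d) : ℕ) : ℝ) ^ r) = ((2 : ℝ) ^ (L * r)) ^ d := by
      push_cast
      rw [← pow_mul, ← pow_mul]; congr 1; ring
    rw [h2, rpow_aux _ (by positivity) d u hd]
    have h3 : (((2 ^ (L * r)) ^ u : ℕ) : ℝ) ≤ ((2 * ((range (B * (2 ^ (L * d)) ^ r)).filter p).card : ℕ) : ℝ) := by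
      exact_mod_cast h1
    push_cast at h3
    linarith
  · intro m n hmn
    exact card_le_card (filter_subset_filter _ (range_subset_range.2 hmn))
  · have : 1 ≤ L * d := Nat.mul_pos hL hd
    calc 2 = 2 ^ 1 := by norm_num
      _ ≤ 2 ^ (L * d) := Nat.pow_le_pow_right (by norm_num) this

theorem parity_cases (u v c : ℕ) (hc : c < 2) (h : v % 2 ≠ u % 2) : u % 2 = c ∨ v % 2 = c := by omega

open Classical in
theorem intA (a : ℕ → ℤ) (H c : ℕ) (hodd : Odd (H + 1)) (ha : 0 < a (H + 1)) (hc : c < 2) :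
    ∃ c' > (0 : ℝ), ∃ N0 : ℕ, ∀ N ≥ N0,
      c' * (N : ℝ) ^ (((2 : ℕ) : ℝ) / ((H + 1 + 1 : ℕ) : ℝ)) ≤ ((range N).filter (Hit a (H + 1) c)).card := by
  obtain ⟨e, he1, hae⟩ : ∃ e : ℕ, 1 ≤ e ∧ a (H + 1) * 2 ^ H < 3 ^ e := by
    refine ⟨(a (H + 1) * 2 ^ H).toNat + 1, by omega, ?_⟩
    have h1 : (a (H + 1) * 2 ^ H).toNat + 1 < 3 ^ ((a (H + 1) * 2 ^ H).toNat + 1) := Nat.lt_pow_self (by norm_num)
    have h2 : a (H + 1) * 2 ^ H ≤ (a (H + 1) * 2 ^ H).toNat := Int.self_le_toNat _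
    have h3 : (((a (H + 1) * 2 ^ H).toNat + 1 : ℕ) : ℤ) < ((3 ^ ((a (H + 1) * 2 ^ H).toNat + 1) : ℕ) : ℤ) := by
      exact_mod_cast h1
    push_cast at h3
    omega
  obtain ⟨n, hn⟩ : ∃ n, e * (H + 1) = n + 1 := ⟨e * (H + 1) - 1, by
    have : 1 ≤ e * (H + 1) := Nat.mul_pos he1 (by omega)
    omega⟩
  have hn' : e * (H + 1) - 1 = n := by omega
  set A : ℕ := (∑ i ∈ range (H + 1 + 1), |a i|).toNat with hA
  have hAc : (A : ℤ) = ∑ i ∈ range (H + 1 + 1), |a i| :=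
    Int.toNat_of_nonneg (Finset.sum_nonneg fun i _ => abs_nonneg _)
  set q : ℕ := 3 ^ e with hq
  have hqc : (q : ℤ) = 3 ^ e := by rw [hq]; push_cast; rfl
  have hq1 : 1 ≤ q := Nat.one_le_pow _ _ (by norm_num)
  set K : ℕ := A * q ^ (H + 1) * (2 * q) ^ (H + 1) + q ^ (H + 1) + (1 + q * 0 + q) with hK
  have hL1 : 1 ≤ 2 * 3 ^ n := by
    have : 1 ≤ 3 ^ n := Nat.one_le_pow _ _ (by norm_num)
    omega
  obtain ⟨B, hB, hcount⟩ := countPair (H + 1) (2 * 3 ^ n) q 0 K (by omega) hL1 hq1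
    (by
      intro k hk
      have h1 := two_pow_modEq n k hk
      have h2 : (q : ℤ) ∣ 3 ^ (n + 1) := by
        rw [hqc, ← hn, pow_mul]; exact dvd_pow_self _ (by omega)
      exact h2.trans h1)
    (by rw [hK]; omega) (Hit a (H + 1) c)
    (by
      intro k M i j N1 N2 hk hi hj hs hN1 hN2
      have hiM : (i : ℤ) + 1 ≤ M := by exact_mod_cast hi
      have hjM : (j : ℤ) + 1 ≤ M := by exact_mod_cast hj
      have hq1' : (1 : ℤ) ≤ q := by exact_mod_cast hq1
      have hx : (1 + q * i : ℤ) ≤ q * M := by nlinarith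
      have hy : (1 + q * ((0 : ℕ) + j) : ℤ) ≤ q * M := by push_cast; nlinarith
      have hM1 : (1 : ℤ) ≤ M := by
        have : (0 : ℤ) ≤ i := by positivity
        linarith
      have hsum : ((1 + q * i : ℤ) + (1 + q * ((0 : ℕ) + j))) ^ (H + 1) ≤ (2 * q) ^ (H + 1) * M ^ (H + 1) := by
        rw [← mul_pow]
        apply pow_le_pow_left₀ (by positivity)
        linarith
      have hs' : ((K * M ^ (H + 1) : ℕ) : ℤ) < ((2 ^ k : ℕ) : ℤ) := by exact_mod_cast hs
      have hKc : (K : ℤ) = A * q ^ (H + 1) * (2 * q) ^ (H + 1) + q ^ (H + 1) + (1 + q) := by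
        rw [hK]; push_cast; ring
      push_cast at hs'
      rw [hKc] at hs'
      have hMp : (1 : ℤ) ≤ M ^ (H + 1) := one_le_pow₀ hM1
      have hsize : (∑ i ∈ range (H + 1 + 1), |a i|) * (3 ^ e) ^ (H + 1)
          * ((1 + q * i : ℤ) + (1 + q * ((0 : ℕ) + j))) ^ (H + 1) + (3 ^ e) ^ (H + 1) < (2 : ℤ) ^ k := by
        rw [← hAc, ← hqc]
        refine lt_of_le_of_lt ?_ hs'
        have h1 : (A : ℤ) * q ^ (H + 1) * ((1 + q * i : ℤ) + (1 + q * ((0 : ℕ) + j))) ^ (H + 1)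
            ≤ A * q ^ (H + 1) * ((2 * q) ^ (H + 1) * M ^ (H + 1)) :=
          mul_le_mul_of_nonneg_left hsum (by positivity)
        have h2 : (q : ℤ) ^ (H + 1) * 1 ≤ q ^ (H + 1) * M ^ (H + 1) :=
          mul_le_mul_of_nonneg_left hMp (by positivity)
        have h3 : (0 : ℤ) ≤ (1 + q) * M ^ (H + 1) := by positivity
        linarith
      have key := flipA a H e hodd ha he1 hae k (by rw [hn']; exact hk) (1 + q * i) (1 + q * ((0 : ℕ) + j))
        N1 N2 (by rw [← hqc]; exact ⟨i, by ring⟩) (by rw [← hqc]; exact ⟨(0 : ℕ) + j, by ring⟩)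
        (by
          have : (0 : ℤ) ≤ q * i := by positivity
          linarith)
        (by
          have : (0 : ℤ) ≤ q * ((0 : ℕ) + j) := by positivity
          linarith)
        hsize (by rw [← hqc]; exact hN1) (by rw [hn', ← hqc]; exact hN2)
      rcases parity_cases _ _ c hc key.2.2 with h1 | h1
      · exact Or.inl ⟨key.1, h1⟩
      · exact Or.inr ⟨key.2.1, h1⟩)
  exact finish (Hit a (H + 1) c) B (2 * 3 ^ n) (H + 1 + 1) 2 hB hL1 (by omega) (by norm_num) hcount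

open Classical in
theorem intB (a : ℕ → ℤ) (h c : ℕ) (h4 : h % 4 = 2) (ha : 0 < a h) (hc : c < 2) :
    ∃ c' > (0 : ℝ), ∃ N0 : ℕ, ∀ N ≥ N0,
      c' * (N : ℝ) ^ (((2 : ℕ) : ℝ) / ((h + 1 : ℕ) : ℝ)) ≤ ((range N).filter (Hit a h c)).card := by
  set A : ℕ := (∑ i ∈ range (h + 1), |a i|).toNat with hA
  have hAc : (A : ℤ) = ∑ i ∈ range (h + 1), |a i| :=
    Int.toNat_of_nonneg (Finset.sum_nonneg fun i _ => abs_nonneg _)
  set y0 : ℕ := A * 2 ^ h with hy0
  set K : ℕ := A * (3 + y0) ^ h + 1 + (1 + 1 * y0 + 1) with hK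
  obtain ⟨B, hB, hcount⟩ := countPair h 1 1 y0 K (by omega) le_rfl le_rfl
    (by intro k _; simp)
    (by rw [hK]; omega) (Hit a h c)
    (by
      intro k M i j N1 N2 hk hi hj hs hN1 hN2
      have hiM : (i : ℤ) + 1 ≤ M := by exact_mod_cast hi
      have hjM : (j : ℤ) + 1 ≤ M := by exact_mod_cast hj
      have hM1 : (1 : ℤ) ≤ M := by
        have : (0 : ℤ) ≤ i := by positivity
        linarith
      have hy0c : (y0 : ℤ) = (∑ i ∈ range (h + 1), |a i|) * 2 ^ h := by rw [hy0]; push_cast; rw [hAc]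
      have hxy : (((1 + (1 : ℕ) * i : ℤ)) + (1 + (1 : ℕ) * (y0 + j))) ≤ (3 + y0) * M := by
        push_cast
        have : (y0 : ℤ) * 1 ≤ y0 * M := mul_le_mul_of_nonneg_left hM1 (by positivity)
        nlinarith
      have hsum : (((1 + (1 : ℕ) * i : ℤ)) + (1 + (1 : ℕ) * (y0 + j))) ^ h ≤ (3 + y0) ^ h * M ^ h := by
        rw [← mul_pow]
        exact pow_le_pow_left₀ (by positivity) hxy _
      have hs' : ((K * M ^ h : ℕ) : ℤ) < ((2 ^ k : ℕ) : ℤ) := by exact_mod_cast hs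
      have hKc : (K : ℤ) = A * (3 + y0) ^ h + 1 + (1 + y0 + 1) := by
        rw [hK]; push_cast; ring
      push_cast at hs'
      rw [hKc] at hs'
      have hMp : (1 : ℤ) ≤ M ^ h := one_le_pow₀ hM1
      have hsize : (∑ i ∈ range (h + 1), |a i|)
          * ((1 + (1 : ℕ) * i : ℤ) + (1 + (1 : ℕ) * (y0 + j))) ^ h + 1 < (2 : ℤ) ^ k := by
        rw [← hAc]
        refine lt_of_le_of_lt ?_ hs'
        have h1 : (A : ℤ) * ((1 + (1 : ℕ) * i : ℤ) + (1 + (1 : ℕ) * (y0 + j))) ^ h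
            ≤ A * ((3 + y0) ^ h * M ^ h) :=
          mul_le_mul_of_nonneg_left hsum (by positivity)
        have h3 : (0 : ℤ) ≤ (1 + y0 + 1) * M ^ h := by positivity
        linarith
      have key := flipB a h h4 ha k (1 + (1 : ℕ) * i) (1 + (1 : ℕ) * (y0 + j)) N1 N2
        (by
          have : (0 : ℤ) ≤ (1 : ℕ) * (i : ℤ) := by positivity
          linarith)
        (by
          rw [← hy0c]; push_cast
          have : (0 : ℤ) ≤ (j : ℤ) := by positivity
          linarith)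
        hsize (by rw [hN1]; push_cast; ring) (by rw [hN2]; push_cast; ring)
      rcases parity_cases _ _ c hc key.2.2 with h1 | h1
      · exact Or.inl ⟨key.1, h1⟩
      · exact Or.inr ⟨key.2.1, h1⟩)
  exact finish (Hit a h c) B 1 (h + 1) 2 hB le_rfl (by omega) (by norm_num) hcount

open Classical in
theorem intC (a : ℕ → ℤ) (H c : ℕ) (ha : 0 < a (H + 1)) (hc : c < 2) :
    ∃ c' > (0 : ℝ), ∃ N0 : ℕ, ∀ N ≥ N0,
      c' * (N : ℝ) ^ (((3 : ℕ) : ℝ) / ((2 * (H + 1) + 1 : ℕ) : ℝ)) ≤ ((range N).filter (Hit a (H + 1) c)).card := by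
  set A : ℕ := (∑ i ∈ range (H + 1 + 1), |a i|).toNat with hA
  have hAc : (A : ℤ) = ∑ i ∈ range (H + 1 + 1), |a i| :=
    Int.toNat_of_nonneg (Finset.sum_nonneg fun i _ => abs_nonneg _)
  set z0 : ℕ := A * 2 ^ (H + 1) + 1 with hz0
  have hz0c : (z0 : ℤ) = (∑ i ∈ range (H + 1 + 1), |a i|) * 2 ^ (H + 1) + 1 := by
    rw [hz0]; push_cast; rw [hAc]
  have hpos : ∀ l ≤ H + 1, ∀ z : ℤ, (z0 : ℤ) ≤ z → 0 < pc a (H + 1) l z := by
    intro l hl z hz
    have := pc_sign a (H + 1) l hl ha 1 z (Or.inl rfl) (by linarith)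
    simpa using this
  obtain ⟨e, he1, hae, hpe⟩ : ∃ e : ℕ, 1 ≤ e ∧ a (H + 1) * 2 ^ H < 3 ^ e ∧
      ∀ l ≤ H + 1, pc a (H + 1) l z0 < 3 ^ e := by
    set W : ℤ := a (H + 1) * 2 ^ H + ∑ l ∈ range (H + 1 + 1), pc a (H + 1) l z0 with hW
    have hsum : 0 ≤ ∑ l ∈ range (H + 1 + 1), pc a (H + 1) l z0 :=
      Finset.sum_nonneg fun l hl => (hpos l (by simpa [Nat.lt_succ_iff] using hl) z0 le_rfl).le
    have h1 : W.toNat + 1 < 3 ^ (W.toNat + 1) := Nat.lt_pow_self (by norm_num)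
    have h2 : W ≤ W.toNat := Int.self_le_toNat _
    have h3 : ((W.toNat + 1 : ℕ) : ℤ) < ((3 ^ (W.toNat + 1) : ℕ) : ℤ) := by exact_mod_cast h1
    push_cast at h3
    have ha' : 0 ≤ a (H + 1) * 2 ^ H := by positivity
    refine ⟨W.toNat + 1, by omega, by linarith, ?_⟩
    intro l hl
    have h4 : pc a (H + 1) l z0 ≤ ∑ l ∈ range (H + 1 + 1), pc a (H + 1) l z0 :=
      Finset.single_le_sum (f := fun l => pc a (H + 1) l z0)
        (fun l hl => (hpos l (by simpa [Nat.lt_succ_iff] using hl) z0 le_rfl).le) (by simp; omega)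
    linarith
  obtain ⟨n, hn⟩ : ∃ n, e * (H + 1) = n + 1 := ⟨e * (H + 1) - 1, by
    have : 1 ≤ e * (H + 1) := Nat.mul_pos he1 (by omega)
    omega⟩
  have hn' : e * (H + 1) - 1 = n := by omega
  set q : ℕ := 3 ^ e with hq
  have hqc : (q : ℤ) = 3 ^ e := by rw [hq]; push_cast; rfl
  have hq1 : 1 ≤ q := Nat.one_le_pow _ _ (by norm_num)
  set K : ℕ := A * q ^ (H + 1) * (3 * q + z0) ^ (H + 1) + q ^ (H + 1) + (q * q + q + 1) with hK
  have hL1 : 1 ≤ 2 * 3 ^ n := by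
    have : 1 ≤ 3 ^ n := Nat.one_le_pow _ _ (by norm_num)
    omega
  obtain ⟨B, hB, hcount⟩ := countTriple (H + 1) (2 * 3 ^ n) q z0 K (by omega) hL1 hq1
    (by
      intro k hk
      have h1 := two_pow_modEq n k hk
      have h2 : (q : ℤ) ∣ 3 ^ (n + 1) := by
        rw [hqc, ← hn, pow_mul]; exact dvd_pow_self _ (by omega)
      exact h2.trans h1)
    (by rw [hK]; omega) (Hit a (H + 1) c)
    (by
      intro k M i j l N1 N2 hk hi hj hl hs hN1 hN2
      have hiM : (i : ℤ) + 1 ≤ M := by exact_mod_cast hi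
      have hjM : (j : ℤ) + 1 ≤ M := by exact_mod_cast hj
      have hlM : (l : ℤ) + 1 ≤ M := by exact_mod_cast hl
      have hq1' : (1 : ℤ) ≤ q := by exact_mod_cast hq1
      have hx : (1 + q * i : ℤ) ≤ q * M := by nlinarith
      have hy : (1 + q * j : ℤ) ≤ q * M := by nlinarith
      have hM1 : (1 : ℤ) ≤ M := by
        have : (0 : ℤ) ≤ i := by positivity
        linarith
      have hz : (z0 + q * l : ℤ) ≤ (z0 + q) * M := by
        have h1 : (z0 : ℤ) * 1 ≤ z0 * M := mul_le_mul_of_nonneg_left hM1 (by positivity)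
        have h2 : (q : ℤ) * l ≤ q * M := mul_le_mul_of_nonneg_left (by linarith) (by positivity)
        linarith
      have hsum : ((1 + q * i : ℤ) + (1 + q * j) + (z0 + q * l)) ^ (H + 1)
          ≤ (3 * q + z0) ^ (H + 1) * M ^ (H + 1) := by
        rw [← mul_pow]
        apply pow_le_pow_left₀ (by positivity)
        linarith
      have hs' : ((K * M ^ (H + 1) : ℕ) : ℤ) < ((2 ^ k : ℕ) : ℤ) := by exact_mod_cast hs
      have hKc : (K : ℤ) = A * q ^ (H + 1) * (3 * q + z0) ^ (H + 1) + q ^ (H + 1) + (q * q + q + 1) := by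
        rw [hK]; push_cast; ring
      push_cast at hs'
      rw [hKc] at hs'
      have hMp : (1 : ℤ) ≤ M ^ (H + 1) := one_le_pow₀ hM1
      have hsize : (∑ i ∈ range (H + 1 + 1), |a i|) * (3 ^ e) ^ (H + 1)
          * ((1 + q * i : ℤ) + (1 + q * j) + (z0 + q * l)) ^ (H + 1) + (3 ^ e) ^ (H + 1) < (2 : ℤ) ^ k := by
        rw [← hAc, ← hqc]
        refine lt_of_le_of_lt ?_ hs'
        have h1 : (A : ℤ) * q ^ (H + 1) * ((1 + q * i : ℤ) + (1 + q * j) + (z0 + q * l)) ^ (H + 1)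
            ≤ A * q ^ (H + 1) * ((3 * q + z0) ^ (H + 1) * M ^ (H + 1)) :=
          mul_le_mul_of_nonneg_left hsum (by positivity)
        have h2 : (q : ℤ) ^ (H + 1) * 1 ≤ q ^ (H + 1) * M ^ (H + 1) :=
          mul_le_mul_of_nonneg_left hMp (by positivity)
        have h3 : (0 : ℤ) ≤ (q * q + q + 1) * M ^ (H + 1) := by positivity
        linarith
      have hzz : (z0 : ℤ) ≤ z0 + q * l := by
        have : (0 : ℤ) ≤ q * l := by positivity
        linarith
      have key := flipC a H e ha he1 hae k (by rw [hn']; exact hk) (1 + q * i) (1 + q * j) (z0 + q * l)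
        N1 N2 (by rw [← hqc]; exact ⟨i, by ring⟩) (by rw [← hqc]; exact ⟨j, by ring⟩)
        (by
          have : (0 : ℤ) ≤ q * i := by positivity
          linarith)
        (by
          have : (0 : ℤ) ≤ q * j := by positivity
          linarith)
        (by
          have : (1 : ℤ) ≤ z0 := by rw [hz0]; push_cast; have : (0:ℤ) ≤ A * 2 ^ (H + 1) := by positivity
                                    linarith
          linarith)
        (hpos 0 (by omega) _ hzz).le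
        (by
          intro l' hl' hd
          have h1 := pc_modEq a (H + 1) l' (z0 + q * l) z0 (3 ^ e) (by rw [← hqc]; exact ⟨l, by ring⟩)
          have h2 := (dvd_sub_right hd).1 h1
          exact absurd (Int.le_of_dvd (hpos l' hl' z0 le_rfl) h2) (not_le.2 (hpe l' hl')))
        hsize (by rw [← hqc]; exact hN1) (by rw [hn', ← hqc]; exact hN2)
      rcases parity_cases _ _ c hc key.2.2 with h1 | h1
      · refine Or.inl ⟨?_, ?_⟩
        · push_cast; exact key.1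
        · push_cast; exact h1
      · refine Or.inr ⟨?_, ?_⟩
        · push_cast; exact key.2.1
        · push_cast; exact h1)
  exact finish (Hit a (H + 1) c) B (2 * 3 ^ n) (2 * (H + 1) + 1) 3 hB hL1 (by omega) (by norm_num) hcount

open Classical in
theorem intPoly (a : ℕ → ℤ) (h c : ℕ) (hh : 2 ≤ h) (ha : 0 < a h) (hc : c < 2) :
    ∃ c' > (0 : ℝ), ∃ N0 : ℕ, ∀ N ≥ N0,
      c' * (N : ℝ) ^ (expo h) ≤ ((range N).filter (Hit a h c)).card := by
  unfold expo
  obtain ⟨H, rfl⟩ : ∃ H, h = H + 1 := ⟨h - 1, by omega⟩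
  by_cases h4 : 4 ∣ H + 1
  · rw [if_pos h4]
    have := intC a H c ha hc
    push_cast at this ⊢
    exact this
  · rw [if_neg h4]
    rcases Nat.even_or_odd (H + 1) with he | ho
    · have h42 : (H + 1) % 4 = 2 := by
        obtain ⟨r, hr⟩ := he
        omega
      have := intB a (H + 1) c h42 ha hc
      push_cast at this ⊢
      exact this
    · have := intA a H c ho ha hc
      push_cast at this ⊢
      exact this

end H2TM
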