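import Pool.Agent.H2.TM.Digits

/-! Shift lemma specialised to `Q = 3^(n+1)`. -/

namespace H2TM

open Finset

theorem two_pow_modEq (n k : ℕ) (hk : 2 * 3 ^ n ∣ k) : (3 ^ (n + 1) : ℤ) ∣ 2 ^ k - 1 := by
  obtain ⟨c, hc⟩ := three_pow_dvd n
  obtain ⟨r, rfl⟩ := hk
  have h1 : (3 ^ (n + 1) : ℤ) ∣ 2 ^ (2 * 3 ^ n) - 1 := by
    refine ⟨c * (2 ^ (3 ^ n) - 1), ?_⟩
    have hz : ((2 : ℤ) ^ 3 ^ n) + 1 = 3 ^ (n + 1) * c := by
      have : ((2 ^ 3 ^ n + 1 : ℕ) : ℤ) = ((3 ^ (n + 1) * c : ℕ) : ℤ) := by rw [hc]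
      push_cast at this
      exact this
    have e : (2 : ℤ) ^ (2 * 3 ^ n) = (2 ^ 3 ^ n) ^ 2 := by rw [← pow_mul, mul_comm]
    rw [e, ← mul_assoc, ← hz]; ring
  have h2 : ((2 : ℤ) ^ (2 * 3 ^ n)) - 1 ∣ ((2 : ℤ) ^ (2 * 3 ^ n)) ^ r - 1 ^ r := sub_dvd_pow_sub_pow _ _ _
  rw [one_pow, ← pow_mul] at h2
  exact h1.trans h2

theorem shift_three (n k m : ℕ) (g : ℕ → ℤ) (S S' : ℤ) (hk : 2 * 3 ^ n ∣ k)
    (hS : (3 ^ (n + 1) : ℤ) * S = ∑ j ∈ range (m + 1), g j * ((2 : ℤ) ^ k) ^ j)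
    (hS' : (3 ^ (n + 1) : ℤ) * S' = ∑ j ∈ range (m + 1), g j * ((2 : ℤ) ^ (k + 2 * 3 ^ n)) ^ j)
    (hg : ∀ j < m, |g j| + 3 ^ (n + 1) < (2 : ℤ) ^ k) (hm : 0 ≤ g m)
    (hz : ∀ j < m, (3 ^ (n + 1) : ℤ) ∣ ∑ i ∈ Ico (j + 1) (m + 1), g i →
      (∑ i ∈ Ico j (m + 1), g i) % 3 ^ (n + 1) ≤ g j) :
    0 ≤ S ∧ 0 ≤ S' ∧ s2 S'.toNat = s2 S.toNat +
      3 ^ n * ((range m).filter (fun j => ¬ (3 ^ (n + 1) : ℤ) ∣ ∑ i ∈ Ico (j + 1) (m + 1), g i)).card := by
  obtain ⟨c, hc, hdig⟩ := s2_three n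
  set Q : ℤ := 3 ^ (n + 1) with hQdef
  have hQpos : 0 < Q := by positivity
  have hQc : ((3 ^ (n + 1) : ℕ) : ℤ) = Q := by push_cast; rfl
  set τ : ℕ → ℤ := fun j => ∑ i ∈ Ico j (m + 1), g i with hτ
  set R : ℕ → ℕ := fun j => (τ j % Q).toNat with hR
  have hRcast : ∀ j, ((R j : ℕ) : ℤ) = τ j % Q := by
    intro j; exact Int.toNat_of_nonneg (Int.emod_nonneg _ hQpos.ne')
  have hRlt : ∀ j, (R j : ℤ) < Q := by intro j; rw [hRcast]; exact Int.emod_lt_of_pos _ hQpos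
  have hRdvd : ∀ j, Q ∣ τ j - R j := by
    intro j; rw [hRcast]; exact Int.dvd_self_sub_emod
  have hT1 : Q ∣ 2 ^ k - 1 := two_pow_modEq n k hk
  have hτrec : ∀ j ≤ m, τ j = g j + τ (j + 1) := by
    intro j hj
    simp only [hτ]
    rw [Finset.sum_eq_sum_Ico_succ_bot (by omega)]
  have hRm : R (m + 1) = 0 := by simp [hR, hτ]
  have hR0 : R 0 = 0 := by
    have h0 : Q ∣ τ 0 := by
      have h1 : Q ∣ ∑ j ∈ range (m + 1), g j * ((2 : ℤ) ^ k) ^ j - ∑ j ∈ range (m + 1), g j := by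
        rw [← Finset.sum_sub_distrib]
        apply Finset.dvd_sum
        intro j _
        have : g j * ((2 : ℤ) ^ k) ^ j - g j = g j * (((2 : ℤ) ^ k) ^ j - 1 ^ j) := by rw [one_pow]; ring
        rw [this]
        exact Dvd.dvd.mul_left (hT1.trans (sub_dvd_pow_sub_pow _ _ _)) _
      rw [← hS] at h1
      have h2 : Q ∣ Q * S := dvd_mul_right _ _
      have h3 := dvd_sub h2 h1
      simp only [sub_sub_cancel] at h3
      simp only [hτ]
      rw [← Finset.range_eq_Ico]; exact h3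
    simp only [hR]
    rw [Int.emod_eq_zero_of_dvd h0]; rfl
  have hdvd : ∀ j ≤ m, Q ∣ (R (j + 1) : ℤ) * 2 ^ k + g j - R j := by
    intro j hj
    have e : (R (j + 1) : ℤ) * 2 ^ k + g j - R j
        = (R (j + 1) : ℤ) * (2 ^ k - 1) + (τ j - R j) - (τ (j + 1) - R (j + 1)) := by
      rw [hτrec j hj]; ring
    rw [e]
    exact dvd_sub (dvd_add (Dvd.dvd.mul_left hT1 _) (hRdvd j)) (hRdvd (j + 1))
  -- bounds
  have hlow : ∀ j ≤ m, 0 ≤ (R (j + 1) : ℤ) * 2 ^ k + g j - R j := by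
    intro j hj
    rcases Nat.eq_zero_or_pos (R (j + 1)) with h0 | hpos
    · rw [h0]
      simp only [Nat.cast_zero, zero_mul, zero_add]
      rcases hj.lt_or_eq with hlt | rfl
      · have hd : Q ∣ τ (j + 1) := by
          have := hRdvd (j + 1)
          rw [h0] at this; simpa using this
        have := hz j hlt hd
        rw [hRcast]
        change τ j % Q ≤ g j at this
        linarith
      · have e : τ j = g j := by simp [hτ]
        rw [hRcast, e]
        have h1 : g j % Q ≤ g j := by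
          have h2 := Int.emod_add_mul_ediv (g j) Q
          have h3 : 0 ≤ g j / Q := Int.ediv_nonneg hm hQpos.le
          have h4 : 0 ≤ Q * (g j / Q) := mul_nonneg hQpos.le h3
          linarith
        linarith
    · rcases hj.lt_or_eq with hlt | rfl
      · have h1 := hg j hlt
        have h2 := hRlt j
        have h3 : (1 : ℤ) ≤ R (j + 1) := by exact_mod_cast hpos
        have h4 : (2 : ℤ) ^ k ≤ R (j + 1) * 2 ^ k := by nlinarith [pow_pos (show (0:ℤ) < 2 by norm_num) k]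
        have h5 := neg_abs_le (g j)
        linarith
      · rw [hRm] at hpos; omega
  choose! b hb using fun j (hj : j ≤ m) => hdvd j hj
  have hbnn : ∀ j ≤ m, 0 ≤ b j := by
    intro j hj
    have h1 := hlow j hj
    rw [hb j hj] at h1
    exact nonneg_of_mul_nonneg_right h1 hQpos
  have hbT : ∀ j < m, b j < 2 ^ k := by
    intro j hj
    have h1 := hg j hj
    have h2 := hRlt (j + 1)
    have h3 := le_abs_self (g j)
    have hRj : (0 : ℤ) ≤ R j := by positivity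
    have h5 : Q * b j < Q * 2 ^ k := by
      rw [← hb j hj.le]
      have h6 : ((R (j + 1) : ℤ) + 1) * 2 ^ k ≤ Q * 2 ^ k :=
        mul_le_mul_of_nonneg_right (by linarith) (by positivity)
      have : ((R (j + 1) : ℤ) + 1) * 2 ^ k = R (j + 1) * 2 ^ k + 2 ^ k := by ring
      rw [this] at h6
      linarith
    exact lt_of_mul_lt_mul_left h5 hQpos.le
  have key := s2_shift (3 ^ (n + 1)) (2 * 3 ^ n) k m c (by positivity) hc g R (fun j => (b j).toNat)
    hR0 hRm ?_ ?_ ?_ S S' ?_ ?_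
  · refine ⟨key.1, key.2.1, ?_⟩
    rw [key.2.2]
    congr 1
    have : ∀ j ∈ range m, s2 (c * R (j + 1)) =
        if ¬ Q ∣ ∑ i ∈ Ico (j + 1) (m + 1), g i then 3 ^ n else 0 := by
      intro j _
      by_cases hd : Q ∣ ∑ i ∈ Ico (j + 1) (m + 1), g i
      · have : R (j + 1) = 0 := by
          simp only [hR]
          rw [Int.emod_eq_zero_of_dvd hd]; rfl
        rw [this]
        simp [hd, s2_zero]
      · rw [if_pos hd]
        apply hdig
        · rcases Nat.eq_zero_or_pos (R (j + 1)) with h0 | hpos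
          · exfalso
            apply hd
            have := hRdvd (j + 1)
            rw [h0] at this; simpa using this
          · exact hpos
        · have := hRlt (j + 1)
          rw [← hQc] at this
          exact_mod_cast this
    rw [Finset.sum_congr rfl this, ← Finset.sum_filter, Finset.sum_const, smul_eq_mul, mul_comm]
  · intro j
    have := (hRlt j).le
    rw [← hQc] at this
    exact_mod_cast this
  · intro j hj
    rw [Int.toNat_of_nonneg (hbnn j hj), hQc, ← hb j hj]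
  · intro j hj
    have := hbT j hj
    have h2 := hbnn j hj.le
    zify
    rw [Int.toNat_of_nonneg h2]; exact this
  · rw [hQc]; exact hS
  · rw [hQc]; exact hS'

end H2TM
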